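import Pool.Agent.V8H95.ND.Par3

/-!
The hypotheses of the descent hold.
-/

set_option autoImplicit false
set_option linter.unusedSectionVars false
set_option linter.unusedVariables false

open Complex MeasureTheory
open scoped BigOperators ComplexConjugate

namespace Pool.Agent.V8H95.ND

open Pool.Agent.H4R2.AE Pool.Agent.V8H99.AD Pool.Agent.V8H95.MF Pool.Agent.V8H95.BW
open Pool.Agent.V8H95.EF Pool.Agent.V8H95.NM

section
variable {d L : ℕ} {Cg Cs A : ℝ} {g0 bq J Q N2 p : ℕ} {lam c0 θ mg κ x ϑ s2 K2 pG : ℝ}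

theorem Sm.fH1 (h : Sm d L Cg Cs A g0 bq J Q N2 p lam c0 θ mg κ x ϑ s2 K2 pG) (κe ρ : ℝ)
    (h1 : s2 * κ ≤ κe) (h2 : κe ≤ K2 * κ) (hρ : x ≤ ρ) :
    lam * (Cg / √κe + 2 / ρ * ((J + 2) * (1 / x * (A * κe) / ρ))) ≤ 1 / 2 := by
  obtain ⟨hke3, hkex, hke0⟩ := h.ke κe h1
  have hx := h.x0
  have hk := h.k0
  have hl := h.lam0
  have hA := h.A1
  have hCg := h.Cg1
  have hA0 : 0 < A := by linarith
  have hρ0 : 0 < ρ := lt_of_lt_of_le hx hρ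
  have a1 : lam / x ^ 7 ≤ √κe := by
    apply Real.le_sqrt_of_sq_le
    refine le_trans ?_ hkex
    rw [div_pow, div_le_iff₀ (by positivity)]
    calc lam ^ 2 ≤ κ * x ^ 16 := h.klo
      _ = x * κ * x ^ 15 := by ring
      _ ≤ x * κ * (x ^ 7) ^ 2 := by
          have : x ^ 15 ≤ (x ^ 7) ^ 2 := by
            rw [← pow_mul]
            exact pow_le_pow_of_le_one hx.le h.x1 (by norm_num)
          gcongr
  have a2 : lam * (Cg / √κe) ≤ 1 / 4 := by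
    have e1 : lam * (Cg / (lam / x ^ 7)) = Cg * x ^ 7 := by field_simp
    have hx7 : x ^ 7 ≤ x := by
      calc x ^ 7 ≤ x ^ 1 := pow_le_pow_of_le_one hx.le h.x1 (by norm_num)
        _ = x := pow_one x
    calc lam * (Cg / √κe) ≤ lam * (Cg / (lam / x ^ 7)) := by gcongr
      _ = Cg * x ^ 7 := e1
      _ ≤ Cg * x := by gcongr
      _ ≤ 1 / 4 := by linarith [h.z3]
  have h3 : A * κe ≤ 1 := by
    refine le_trans ?_ h.k1
    gcongr
  have a3 : lam * (2 / ρ * ((J + 2) * (1 / x * (A * κe) / ρ))) ≤ 1 / 4 := by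
    calc lam * (2 / ρ * ((J + 2) * (1 / x * (A * κe) / ρ))) ≤
        x ^ 16 * (2 / x * ((J + 2) * (1 / x * 1 / x))) := by
          have := h.lx
          gcongr
      _ = 2 * (J + 2) * x ^ 13 := by field_simp
      _ ≤ 2 * (J + 2) * x := by
          have : x ^ 13 ≤ x := by
            calc x ^ 13 ≤ x ^ 1 := pow_le_pow_of_le_one hx.le h.x1 (by norm_num)
              _ = x := pow_one x
          gcongr
      _ ≤ 1 / 4 := by linarith [h.z4]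
  rw [mul_add]
  linarith

theorem Sm.fHT (h : Sm d L Cg Cs A g0 bq J Q N2 p lam c0 θ mg κ x ϑ s2 K2 pG) (κe ρ : ℝ)
    (h1 : s2 * κ ≤ κe) (h2 : κe ≤ K2 * κ) (hρ : x ≤ ρ) :
    4 * lam ^ 2 / (et lam κ x) * ((L : ℝ) ^ d / (et lam κ x) ^ 2 *
    (1 / x * (A * κe) / ρ ^ 2 * K0 g0 / (1 / x) ^ (3 * 2 ^ bq))) +
    4 * (L : ℝ) ^ d / (et lam κ x) ^ 2 *
      (pG + (J + 1) * (L : ℝ) ^ d * K0 g0 / (1 / x) ^ (3 * 2 ^ bq)) ≤ x := by
  obtain ⟨hke3, hkex, hke0⟩ := h.ke κe h1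
  have hx := h.x0
  have hk := h.k0
  have hl := h.lam0
  have hη := h.et0
  have hA := h.A1
  have hA0 : 0 < A := by linarith
  have hρ0 : 0 < ρ := lt_of_lt_of_le hx hρ
  have hK := K0_ge g0
  have hK0 : 0 < K0 g0 := by linarith
  obtain ⟨w1, w2⟩ := h.W
  obtain ⟨b1, b2, b3⟩ := h.B κe ρ hke0 h2 hρ
  obtain ⟨x1, x2⟩ := h.xbq
  have hl1 := h.lam1
  have hb3 : 1 / x * (A * κe) / ρ ^ 2 ≤ 1 / lam := by
    refine b1.trans ?_
    apply one_div_le_one_div_of_le hl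
    refine h.lx.trans ?_
    exact pow_le_pow_of_le_one hx.le h.x1 (by norm_num)
  have hQ := h.hQ
  have e0 : ∀ y : ℝ, y / (1 / x) ^ (3 * 2 ^ bq) = y * x ^ (3 * 2 ^ bq) := by
    intro y
    rw [one_div, inv_pow, div_inv_eq_mul]
  rw [e0, e0]
  have t1 : 4 * lam ^ 2 / (et lam κ x) * ((L : ℝ) ^ d / (et lam κ x) ^ 2 *
      (1 / x * (A * κe) / ρ ^ 2 * K0 g0 * x ^ (3 * 2 ^ bq))) ≤ 4 * K0 g0 * lam := by
    calc 4 * lam ^ 2 / (et lam κ x) * ((L : ℝ) ^ d / (et lam κ x) ^ 2 *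
        (1 / x * (A * κe) / ρ ^ 2 * K0 g0 * x ^ (3 * 2 ^ bq))) ≤
        4 * lam ^ 2 / lam ^ 4 * (1 / lam ^ (N2 + 8) *
          (1 / lam * K0 g0 * lam ^ (N2 + 12))) := by
          have := h.et_ge
          have x3 : x ^ (3 * 2 ^ bq) ≤ lam ^ (N2 + 12) :=
            x1.trans (pow_le_pow_of_le_one hl.le hl1 (by omega))
          gcongr
      _ = 4 * K0 g0 * lam := by
          rw [show N2 + 12 = (N2 + 8) + 4 by ring, pow_add lam (N2 + 8) 4]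
          field_simp
  have t2 : 4 * (L : ℝ) ^ d / (et lam κ x) ^ 2 *
      (pG + (J + 1) * (L : ℝ) ^ d * K0 g0 * x ^ (3 * 2 ^ bq)) ≤
      4 * lam + 4 * (J + 1) * K0 g0 * lam := by
    have hp := h.hp
    have hg1 : 1 ≤ 2 ^ g0 := Nat.one_le_two_pow
    have hp1 : N2 + 9 ≤ p := by
      have : (N2 + 40) * 1 ≤ (N2 + 40) * 2 ^ g0 := Nat.mul_le_mul_left _ hg1
      omega
    have y1 : pG ≤ lam ^ (N2 + 9) := h.pG1.trans (pow_le_pow_of_le_one hl.le hl1 hp1)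
    have y2 : x ^ (3 * 2 ^ bq) ≤ lam ^ (N2 + (N2 + 9)) :=
      x1.trans (pow_le_pow_of_le_one hl.le hl1 (by omega))
    have e1 : 4 * (L : ℝ) ^ d / (et lam κ x) ^ 2 = 4 * ((L : ℝ) ^ d / (et lam κ x) ^ 2) := by ring
    have hpG := h.pG0
    rw [e1]
    calc 4 * ((L : ℝ) ^ d / (et lam κ x) ^ 2) *
        (pG + (J + 1) * (L : ℝ) ^ d * K0 g0 * x ^ (3 * 2 ^ bq)) ≤
        4 * (1 / lam ^ (N2 + 8)) * (lam ^ (N2 + 9) +
          (J + 1) * (1 / lam ^ (N2)) * K0 g0 * lam ^ (N2 + (N2 + 9))) := by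
          gcongr
      _ = 4 * (1 / lam ^ (N2 + 8)) * (lam ^ (N2 + 9) +
          (J + 1) * K0 g0 * lam ^ (N2 + 9)) := by
          rw [pow_add lam (N2) (N2 + 9)]
          field_simp
      _ = _ := by
          rw [show N2 + 9 = (N2 + 8) + 1 by ring, pow_add lam (N2 + 8) 1]
          field_simp
  have hlx : lam ≤ x * x := by
    refine h.lx.trans ?_
    calc x ^ 16 ≤ x ^ 2 := pow_le_pow_of_le_one hx.le h.x1 (by norm_num)
      _ = x * x := by ring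
  have z6 := h.z6
  calc _ ≤ 4 * K0 g0 * lam + (4 * lam + 4 * (J + 1) * K0 g0 * lam) := add_le_add t1 t2
    _ = (4 * K0 g0 + 4 + 4 * (J + 1) * K0 g0) * lam := by ring
    _ ≤ (4 * K0 g0 + 4 + 4 * (J + 1) * K0 g0) * (x * x) := by gcongr
    _ = ((4 * K0 g0 + 4 + 4 * (J + 1) * K0 g0) * x) * x := by ring
    _ ≤ 1 * x := by gcongr
    _ = x := one_mul x

theorem Sm.fH4a (h : Sm d L Cg Cs A g0 bq J Q N2 p lam c0 θ mg κ x ϑ s2 K2 pG) (κe : ℝ)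
    (h1 : s2 * κ ≤ κe) :
    Cs * ((L : ℝ) ^ d / (et lam κ x) ^ 2) ^ (2 ^ g0) * pG ≤ 1 / 4 * (A * κe) ^ (2 * 2 ^ g0) := by
  obtain ⟨hke3, hkex, hke0⟩ := h.ke κe h1
  have hx := h.x0
  have hl := h.lam0
  have hη := h.et0
  have hA := h.A1
  have hCs := h.Cs1
  obtain ⟨w1, w2⟩ := h.W
  have hl1 := h.lam1
  have hpG := h.pG0
  have hp := h.hp
  obtain ⟨G, hG⟩ : ∃ G : ℕ, G = 2 ^ g0 := ⟨_, rfl⟩
  have hG1 : 1 ≤ G := by rw [hG]; exact Nat.one_le_two_pow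
  rw [← hG] at hp ⊢
  have hp1 : (N2 + 8) * G + (3 * (2 * G) + 1) ≤ p := by
    refine le_trans ?_ hp
    nlinarith
  have y1 : pG ≤ lam ^ ((N2 + 8) * G + (3 * (2 * G) + 1)) :=
    h.pG1.trans (pow_le_pow_of_le_one hl.le hl1 hp1)
  have y2 : lam ^ (3 * (2 * G)) ≤ (A * κe) ^ (2 * G) := by
    rw [pow_mul]
    have : lam ^ 3 ≤ A * κe := by nlinarith
    gcongr
  have z9 : 4 * Cs * lam ≤ 1 := by
    have h9 := h.z9
    have hK := K0_ge g0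
    have h3 := h.lx1
    have h4 : 1 ≤ ((J : ℝ) + 1) * K0 g0 := by
      have : (0 : ℝ) ≤ J := Nat.cast_nonneg J
      nlinarith
    calc 4 * Cs * lam ≤ 4 * Cs * x * 1 := by rw [mul_one]; gcongr
      _ ≤ 4 * Cs * x * (((J : ℝ) + 1) * K0 g0) := by gcongr
      _ = 4 * Cs * (J + 1) * K0 g0 * x := by ring
      _ ≤ 1 := h9
  calc Cs * ((L : ℝ) ^ d / (et lam κ x) ^ 2) ^ G * pG ≤
      Cs * (1 / lam ^ (N2 + 8)) ^ G * lam ^ ((N2 + 8) * G + (3 * (2 * G) + 1)) := by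
        gcongr
    _ = 1 / 4 * (4 * Cs * lam) * lam ^ (3 * (2 * G)) := by
        rw [one_div_pow, ← pow_mul, pow_add lam ((N2 + 8) * G), pow_add lam (3 * (2 * G)) 1]
        field_simp
    _ ≤ 1 / 4 * 1 * (A * κe) ^ (2 * G) := by gcongr
    _ = _ := by ring

theorem Sm.fH4b (h : Sm d L Cg Cs A g0 bq J Q N2 p lam c0 θ mg κ x ϑ s2 K2 pG) (κe : ℝ)
    (h1 : s2 * κ ≤ κe) :
    (L : ℝ) ^ d / (et lam κ x) ^ 2 ≤ (A * κe) ^ 2 * (1 / x) ^ (2 ^ bq) := by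
  obtain ⟨hke3, hkex, hke0⟩ := h.ke κe h1
  have hx := h.x0
  have hl := h.lam0
  have hA := h.A1
  obtain ⟨w1, w2⟩ := h.W
  obtain ⟨x1, x2⟩ := h.xbq
  have hl1 := h.lam1
  have hQ := h.hQ
  have x3 : x ^ (2 ^ bq) ≤ lam ^ (6 + (N2 + 8)) :=
    x2.trans (pow_le_pow_of_le_one hl.le hl1 (by omega))
  have y2 : lam ^ 6 ≤ (A * κe) ^ 2 := by
    have h3 : lam ^ 3 ≤ A * κe := by nlinarith
    calc lam ^ 6 = (lam ^ 3) ^ 2 := by ring
      _ ≤ _ := by gcongr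
  refine w2.trans ?_
  rw [one_div_pow]
  calc 1 / lam ^ (N2 + 8) = lam ^ 6 * (1 / lam ^ (6 + (N2 + 8))) := by
        rw [pow_add lam 6]
        field_simp
    _ ≤ (A * κe) ^ 2 * (1 / x ^ (2 ^ bq)) := by gcongr

theorem Sm.fH4c (h : Sm d L Cg Cs A g0 bq J Q N2 p lam c0 θ mg κ x ϑ s2 K2 pG) :
    Cs * ((J + 1) * (L : ℝ) ^ d * K0 g0) ≤ 1 / 4 * (1 / x) ^ (2 ^ (bq - 1)) := by
  have hx := h.x0
  have hl := h.lam0
  have hCs := h.Cs1
  have hK := K0_ge g0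
  obtain ⟨w1, w2⟩ := h.W
  have hl1 := h.lam1
  have hQ := h.hQ
  have hxb : x ^ (2 ^ (bq - 1)) ≤ lam ^ (N2 + 1) :=
    h.xb.trans (pow_le_pow_of_le_one hl.le hl1 (by omega))
  have h3 := h.lx1
  have z9 : 4 * Cs * (J + 1) * K0 g0 * lam ≤ 1 := by
    refine le_trans ?_ h.z9
    gcongr
  rw [one_div_pow]
  have h5 : 1 / lam ^ (N2 + 1) ≤ 1 / x ^ (2 ^ (bq - 1)) := by gcongr
  calc Cs * ((J + 1) * (L : ℝ) ^ d * K0 g0) ≤ Cs * ((J + 1) * (1 / lam ^ (N2)) * K0 g0) := by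
        gcongr
    _ = 1 / 4 * (4 * Cs * (J + 1) * K0 g0 * lam) * (1 / lam ^ (N2 + 1)) := by
        rw [pow_succ]
        field_simp
    _ ≤ 1 / 4 * 1 * (1 / x ^ (2 ^ (bq - 1))) := by gcongr
    _ = _ := by ring

end

/-- **the hypotheses of the descent hold** -/
theorem bh_ok {d L : ℕ} [NeZero L] (μ : Measure ℝ) [IsProbabilityMeasure μ] {Cg Cs A : ℝ}
    {g0 bq J Q N2 p : ℕ} {lam c0 θ mg κ x ϑ s2 K2 : ℝ} (G : Set (T d L → ℝ))
    (h : Sm d L Cg Cs A g0 bq J Q N2 p lam c0 θ mg κ x ϑ s2 K2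
      ((Measure.pi fun _ : T d L => μ).real Gᶜ))
    (hGm : MeasurableSet G) (hG : ∀ V ∈ G, ∃ ψ : T d L → ℝ, Gd lam c0 θ mg V ψ)
    (κe : ℝ) (h1 : s2 * κ ≤ κe) (h2 : κe ≤ K2 * κ) :
    ∃ ρ, x ≤ ρ ∧ κe ^ 2 * ρ ^ J = et lam κ x ∧ Bh μ Cg Cs A g0 bq J lam c0 θ mg κe ρ (1 / x) ϑ
      ((Measure.pi fun _ : T d L => μ).real Gᶜ +
        (J + 1) * (L : ℝ) ^ d * K0 g0 / (1 / x) ^ (3 * 2 ^ bq)) x G := by
  obtain ⟨ρ, hρ0, hρ1, hρx, hρe⟩ := h.rho κe h1 h2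
  obtain ⟨hke3, hkex, hke0⟩ := h.ke κe h1
  refine ⟨ρ, hρx, hρe, ?_⟩
  have hx := h.x0
  have hk := h.k0
  have hl := h.lam0
  have hη := h.et0
  have hA := h.A1
  have hA0 : 0 < A := by linarith
  have hK := K0_ge g0
  have hCs := h.Cs1
  have hl1 := h.lam1
  have hθ0 := h.th0
  obtain ⟨b1, b2, b3⟩ := h.B κe ρ hke0 h2 hρx
  have hpp := h.hp
  have hg1 : 1 ≤ 2 ^ g0 := Nat.one_le_two_pow
  refine
    { d3 := h.d3
      mx := h.mx
      lam0 := hl.le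
      lam1 := hl1
      meas := hGm
      good := hG
      th0 := hθ0
      thv := h.thv
      hv := h.hv
      hvd := h.hvd
      k0 := hke0
      k1 := ?_
      r0 := hρ0
      r1 := hρ1
      L1 := ?_
      hJ := h.hg
      hb := h.hb
      m0 := h.m0
      hm := ?_
      c := h.c
      pG := ?_
      yL := ?_
      kL := ?_
      hδ := le_rfl
      H0 := ?_
      H1 := h.fH1 κe ρ h1 h2 hρx
      HT := ?_
      H2 := ?_
      H3 := ?_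
      H4a := ?_
      H4b := ?_
      H4c := h.fH4c }
  · refine le_trans ?_ h.k1
    gcongr
  · rw [one_le_div hx]
    exact h.x1
  · refine h.hm.trans ?_
    have z5 := h.z5'
    calc x ^ 3 * κ ^ 2 = x * (x * κ) ^ 2 := by ring
      _ ≤ θ * κe ^ 2 := by
          have : x ≤ θ := by linarith
          gcongr
  · rw [hρe]
    have z5 := h.z5'
    have y1 : (Measure.pi fun _ : T d L => μ).real Gᶜ ≤ lam ^ 15 := by
      refine h.pG1.trans (pow_le_pow_of_le_one hl.le hl1 ?_)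
      have : (N2 + 40) * 1 ≤ (N2 + 40) * 2 ^ g0 := Nat.mul_le_mul_left _ hg1
      omega
    have h3 := h.lx1
    have h4 := h.et_ge
    calc (Measure.pi fun _ : T d L => μ).real Gᶜ * (100 * ((d : ℝ) + 1)) ≤
        lam ^ 15 * (100 * ((d : ℝ) + 1)) := by gcongr
      _ = (100 * ((d : ℝ) + 1) * lam) * (lam ^ 4) ^ 2 * (lam ^ 3) ^ 2 := by ring
      _ ≤ θ * (et lam κ x) ^ 2 * κe ^ 2 := by
          have : 100 * ((d : ℝ) + 1) * lam ≤ θ := by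
            refine le_trans ?_ h.z5
            gcongr
          gcongr
  · rw [hρe]
    have h3 := h.Llo
    calc κe ≤ K2 * κ := h2
      _ ≤ (lam ^ 2 * L) * κ := by gcongr
      _ = lam ^ 2 * κ * L := by ring
      _ ≤ et lam κ x * L := by
          have := h.et_ge1
          gcongr
  · have h3 := h.Llo2
    have h4 := h.kl2
    have hs := h.s20
    have hL1 := h.L1
    calc (2 : ℝ) ≤ s2 * (lam ^ 2 * L) := h3
      _ ≤ s2 * (κ * L) := by gcongr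
      _ = s2 * κ * L := by ring
      _ ≤ κe * L := by gcongr
  · refine h.pG1.trans ?_
    calc lam ^ p ≤ lam ^ (3 * (9 * 2 ^ g0)) := by
          apply pow_le_pow_of_le_one hl.le hl1
          refine le_trans ?_ hpp
          nlinarith
      _ = (lam ^ 3) ^ (9 * 2 ^ g0) := by rw [pow_mul]
      _ ≤ κe ^ (9 * 2 ^ g0) := by gcongr
  · rw [hρe]
    exact h.fHT κe ρ h1 h2 hρx
  · rw [hρe]
    have z7 := h.z7
    calc 4 * lam ^ 2 * (1 / x * (A * κe) / ρ ^ 2) / et lam κ x + DD d * x =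
        4 * (lam ^ 2 * (1 / x * (A * κe) / ρ ^ 2) / et lam κ x) + DD d * x := by ring
      _ ≤ 4 * (A * K2 * x) + DD d * x := by gcongr
      _ = (4 * A * K2 + DD d) * x := by ring
      _ ≤ _ := z7
  · rw [hρe]
    have z8 := h.z8
    calc Cs * (2 * K0 g0) * (lam ^ 2 * (A * κe) / (ρ ^ 3 * et lam κ x)) ≤
        Cs * (2 * K0 g0) * (A * K2 * x) := by gcongr
      _ = 1 / 2 * (4 * Cs * K0 g0 * A * K2 * x) := by ring
      _ ≤ 1 / 2 * 1 := by gcongr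
      _ = 1 / 2 := by norm_num
  · rw [hρe]
    exact h.fH4a κe h1
  · rw [hρe]
    exact h.fH4b κe h1

end Pool.Agent.V8H95.ND
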