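import Pool.Agent.V8H95.NE.Qm
import Pool.Agent.V8H95.ND.Par4

/-!
The event at one energy.
-/

set_option autoImplicit false
set_option linter.unusedSectionVars false
set_option linter.unusedVariables false

open Complex MeasureTheory
open scoped BigOperators ComplexConjugate

namespace Pool.Agent.V8H95.ND

open Pool.Agent.H4R2.AE Pool.Agent.V8H99.AD Pool.Agent.V8H95.MF Pool.Agent.V8H95.BW
open Pool.Agent.V8H95.EF Pool.Agent.V8H95.NM

section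
variable {d L : ℕ} [NeZero L] {μ : Measure ℝ} [IsProbabilityMeasure μ] {Cg Cs A : ℝ} {g0 bq J : ℕ}
  {lam c0 θ mg κ ρ Λ ϑ δ T' : ℝ} {G : Set (T d L → ℝ)}

theorem om2 (h : Bh μ Cg Cs A g0 bq J lam c0 θ mg κ ρ Λ ϑ δ T' G) (hA : 10000 ≤ A)
    (hGG : GGb d Cg)
    (H1' : lam * (Cg / √κ + 2 / ρ * ((J + 2) * (Λ * (A * κ) / ρ))) ≤ 1 / 4)
    (j : ℕ) (hj : j + 1 ≤ J) (V : T d L → ℝ)
    (hV : V ∈ Oj lam c0 κ ρ (Λ * (A * κ)) G j) : (∀ x, |V x| ≤ 1) ∧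
    (∀ y, lam * ‖GG lam (ze c0 κ ρ (j + 1)) y y V‖ ≤ 1 / 4) ∧
    ∀ y, XX lam (ze c0 κ ρ (j + 1)) y V ≤ Λ * (A * κ) / ρ := by
  obtain ⟨hVG, hVO⟩ := hV
  obtain ⟨ψ, hψ⟩ := h.good V hVG
  have hκ := h.k0
  have hρ := h.r0
  have hΛ := h.L1
  have hA0 : 0 < A := by linarith
  have hB : Λ * (A * κ) ≤ Λ * (A * κ) / ρ := by
    rw [le_div_iff₀ hρ]
    have : 0 ≤ Λ * (A * κ) := by positivity
    nlinarith [h.r1]
  have hall : ∀ (i : ℕ), i ≤ j + 1 → ∀ w,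
      XX lam (zz c0 (κ ^ 2) (κ ^ 2 * ρ ^ i)) w V ≤ Λ * (A * κ) / ρ := by
    intro i hi w
    rcases Nat.lt_or_ge i (j + 1) with hlt | hge
    · exact (hVO i (Finset.mem_range.2 hlt) w).trans hB
    · have hi' : i = j + 1 := le_antisymm hi hge
      subst hi'
      have h2 := XX_mono lam c0 (κ ^ 2) w V (κ ^ 2 * ρ ^ j) (κ ^ 2 * ρ ^ (j + 1)) (by positivity)
        (by
          have : ρ ^ (j + 1) ≤ ρ ^ j := pow_le_pow_of_le_one hρ.le h.r1 (by omega)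
          gcongr)
      refine h2.trans ?_
      have e1 : κ ^ 2 * ρ ^ j / (κ ^ 2 * ρ ^ (j + 1)) = 1 / ρ := by
        field_simp
        ring
      rw [e1]
      have h3 := hVO j (Finset.mem_range.2 (by omega)) w
      calc 1 / ρ * XX lam (zz c0 (κ ^ 2) (κ ^ 2 * ρ ^ j)) w V ≤ 1 / ρ * (Λ * (A * κ)) := by
            gcongr
            exact h3
        _ = _ := by ring
  refine ⟨hψ.hV, fun y => ?_, fun y => hall (j + 1) le_rfl y⟩
  have h1 := hGG L lam c0 θ mg V ψ hψ κ hκ ρ hρ h.r1 (j + 1) (Λ * (A * κ) / ρ) hall y y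
  refine le_trans ?_ H1'
  have hlam := h.lam0
  apply mul_le_mul_of_nonneg_left _ hlam
  refine h1.trans ?_
  have h4 : ((j + 1 : ℕ) : ℝ) + 1 ≤ (J : ℝ) + 2 := by
    have : ((j + 1 : ℕ) : ℝ) ≤ J := by exact_mod_cast hj
    linarith
  gcongr

/-- **the descent, with the event** -/
theorem descent2 (h : Bh μ Cg Cs A g0 bq J lam c0 θ mg κ ρ Λ ϑ δ T' G) (hA : 10000 ≤ A)
    (hCs : 1 ≤ Cs) (hGG : GGb d Cg) (hIN : INb d A) (hRC : RCb d Cs g0) (hJ1 : 1 ≤ J)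
    (H1' : lam * (Cg / √κ + 2 / ρ * ((J + 2) * (Λ * (A * κ) / ρ))) ≤ 1 / 4) :
    VarAt d L μ lam (ze c0 κ ρ J)
      (4 * lam ^ 2 * (Λ * (A * κ) / ρ ^ 2) / (κ ^ 2 * ρ ^ J)) T' ∧
    ∃ O : Set (T d L → ℝ), MeasurableSet O ∧ (Measure.pi fun _ : T d L => μ).real Oᶜ ≤ δ ∧
      ∀ V ∈ O, (∀ x, |V x| ≤ 1) ∧ (∀ y, lam * ‖GG lam (ze c0 κ ρ J) y y V‖ ≤ 1 / 4) ∧
        ∀ y, XX lam (ze c0 κ ρ J) y V ≤ Λ * (A * κ) / ρ := by
  have hall : ∀ j ≤ J, ∀ i ≤ j, ∫ V, XX lam (ze c0 κ ρ i) 0 V ^ (3 * 2 ^ (g0 - bq * i))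
      ∂(Measure.pi fun _ : T d L => μ) ≤ K0 g0 * (A * κ) ^ (3 * 2 ^ (g0 - bq * i)) := by
    intro j
    induction j with
    | zero =>
      intro _ i hi
      have hi0 : i = 0 := by omega
      subst hi0
      rw [Nat.mul_zero, Nat.sub_zero]
      exact base h hA hIN
    | succ j ih =>
      intro hj i hi
      rcases Nat.lt_or_ge i (j + 1) with hlt | hge
      · exact ih (by omega) i (by omega)
      · have hi' : i = j + 1 := le_antisymm hi hge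
        subst hi'
        exact next_I h hA hCs hGG hRC j hj (ih (by omega))
  obtain ⟨j, hj⟩ : ∃ j, J = j + 1 := ⟨J - 1, by omega⟩
  have hI := hall j (by omega)
  have h1 := next_var h hA hGG j (by omega) hI
  rw [← hj] at h1
  refine ⟨h1, Oj lam c0 κ ρ (Λ * (A * κ)) G j, Oj_meas h.k0 h.r0 _ h.meas j, ?_, ?_⟩
  · have hκ := h.k0
    have hρ := h.r0
    have hΛ := h.L1
    have hΛ0 : 0 < Λ := by linarith
    have hA0 : 0 < A := by linarith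
    have hK := K0_ge g0
    have hL := L_pos (L := L)
    have hbj : bq * j + bq ≤ bq * J := by
      have := Nat.mul_le_mul_left bq (show j + 1 ≤ J by omega)
      rwa [Nat.mul_add, Nat.mul_one] at this
    have hJ0 := h.hJ
    have hbg : 2 ^ bq ≤ 2 ^ (g0 - bq * j) := Nat.pow_le_pow_right (by norm_num) (by omega)
    refine (Oj_prob (J := J) hκ hρ hA0 hΛ h.meas j (by omega) hI).trans (le_trans ?_ h.hδ)
    have h3 : 0 < (J + 1) * (L : ℝ) ^ d * K0 g0 := by positivity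
    have h4 : Λ ^ (3 * 2 ^ bq) ≤ Λ ^ (3 * 2 ^ (g0 - bq * j)) := pow_le_pow_right₀ hΛ (by omega)
    have h5 : (J + 1) * (L : ℝ) ^ d * K0 g0 / Λ ^ (3 * 2 ^ (g0 - bq * j)) ≤
        (J + 1) * (L : ℝ) ^ d * K0 g0 / Λ ^ (3 * 2 ^ bq) := by gcongr
    linarith
  · intro V hV
    have := om2 h hA hGG H1' j (by omega) V hV
    rwa [← hj] at this

end

end Pool.Agent.V8H95.ND
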