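import Pool.Agent.V8H95.ND.Oq

/-!
All energies: a grid of energies and the probability of the event.
-/

set_option autoImplicit false
set_option linter.unusedSectionVars false
set_option linter.unusedVariables false

open Complex MeasureTheory
open scoped BigOperators ComplexConjugate

namespace Pool.Agent.V8H95.ND

open Pool.Agent.H4R2.AE Pool.Agent.V8H99.AD Pool.Agent.V8H95.MF Pool.Agent.V8H95.BW
open Pool.Agent.V8H95.EF Pool.Agent.V8H95.NM Pool.Agent.V8H95.NE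

theorem grid {d L : ℕ} [NeZero L] (μ : Measure ℝ) [IsProbabilityMeasure μ] (e0 e1 h : ℝ) (hh : 0 < h)
    (n : ℕ) (hn : (e1 - e0) / h < n) (B : ℝ) (hB : 0 ≤ B) (Q : (T d L → ℝ) → ℝ → Prop)
    (H : ∀ e, e0 ≤ e → e ≤ e1 → ∃ S : Set (T d L → ℝ), MeasurableSet S ∧
      (Measure.pi fun _ : T d L => μ).real Sᶜ ≤ B ∧ ∀ V ∈ S, ∀ t, |t - e| ≤ h → Q V t) :
    ∃ S : Set (T d L → ℝ), MeasurableSet S ∧ (Measure.pi fun _ : T d L => μ).real Sᶜ ≤ n * B ∧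
      ∀ V ∈ S, ∀ t, e0 ≤ t → t ≤ e1 → Q V t := by
  have H' : ∀ j : ℕ, ∃ S : Set (T d L → ℝ), MeasurableSet S ∧
      (Measure.pi fun _ : T d L => μ).real Sᶜ ≤ B ∧
      ∀ V ∈ S, e0 + j * h ≤ e1 → ∀ t, |t - (e0 + j * h)| ≤ h → Q V t := by
    intro j
    by_cases hj : e0 + j * h ≤ e1
    · obtain ⟨S, h1, h2, h3⟩ := H (e0 + j * h) (by
        have : 0 ≤ (j : ℝ) * h := by positivity
        linarith) hj
      exact ⟨S, h1, h2, fun V hV _ => h3 V hV⟩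
    · exact ⟨Set.univ, MeasurableSet.univ, by simpa using hB, fun V _ hj' => absurd hj' hj⟩
  choose S hS1 hS2 hS3 using H'
  refine ⟨⋂ j ∈ Finset.range n, S j, Finset.measurableSet_biInter _ fun j _ => hS1 j, ?_, ?_⟩
  · rw [Set.compl_iInter₂]
    refine (measureReal_biUnion_finset_le _ _).trans ?_
    refine (Finset.sum_le_sum fun j _ => hS2 j).trans ?_
    rw [Finset.sum_const, Finset.card_range, nsmul_eq_mul]
  · intro V hV t ht0 ht1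
    have hq : 0 ≤ (t - e0) / h := div_nonneg (by linarith) hh.le
    have h1 := Nat.floor_le hq
    have h2 := Nat.lt_floor_add_one ((t - e0) / h)
    set j := ⌊(t - e0) / h⌋₊ with hj
    rw [le_div_iff₀ hh] at h1
    rw [div_lt_iff₀ hh] at h2
    have hjn : j < n := by
      have h3 : (j : ℝ) < n := by
        refine lt_of_le_of_lt ?_ hn
        rw [le_div_iff₀ hh]
        linarith
      exact_mod_cast h3
    have hVj : V ∈ S j := by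
      have := Set.mem_iInter₂.1 hV j (Finset.mem_range.2 hjn)
      exact this
    refine hS3 j V hVj (by linarith) t ?_
    rw [abs_le]
    constructor
    · linarith
    · linarith

theorem prob_bd {d L : ℕ} {Cg Cs A : ℝ} {g0 bq J Q N2 p : ℕ}
    {lam c0 θ mg κ x ϑ s2 K2 pG : ℝ}
    (h : Sm d L Cg Cs A g0 bq J Q N2 p lam c0 θ mg κ x ϑ s2 K2 pG) (N P1 : ℕ) (hN : 1 ≤ N)
    (hxN : x ^ N ≤ lam ^ (P1 + N2)) (hQ : 3 * N2 + N + P1 + 1 ≤ 6 * Q)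
    (hp : 2 * N2 + N + P1 + 1 ≤ p)
    (z12 : 32 * (N : ℝ) ^ 3 * (2 ^ N) ^ 2 * (1 + (J + 1) * K0 g0) * x ≤ 1) :
    ((L : ℝ) ^ d * (x ^ 4) ^ N + N * (32 * (N : ℝ) ^ 2 * ((L : ℝ) ^ d) ^ 2 * (2 ^ N) ^ 2 *
        (pG + (J + 1) * (L : ℝ) ^ d * K0 g0 / (1 / x) ^ (3 * 2 ^ bq)))) / x ^ N ≤
      2 * lam ^ P1 := by
  have hx := h.x0
  have hx1 := h.x1
  have hl := h.lam0
  have hl1 := h.lam1
  have hlx := h.lx1
  obtain ⟨w1, w2⟩ := h.W
  obtain ⟨x1, x2⟩ := h.xbq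
  have hK := K0_ge g0
  have hpG := h.pG0
  have hxN0 : 0 < x ^ N := by positivity
  have hxN1 : x ^ N ≤ 1 := pow_le_one₀ hx.le hx1
  have t1 : (L : ℝ) ^ d * (x ^ 4) ^ N / x ^ N ≤ lam ^ P1 := by
    have e1 : (x ^ 4) ^ N = x ^ N * (x ^ N) ^ 2 * x ^ N := by
      rw [← pow_mul, ← pow_mul, ← pow_add, ← pow_add]
      congr 1
      ring
    have e2 : (L : ℝ) ^ d * (x ^ 4) ^ N / x ^ N = (L : ℝ) ^ d * (x ^ N * (x ^ N) ^ 2) := by
      rw [e1]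
      field_simp
    rw [e2]
    have e3 : (x ^ N) ^ 2 ≤ 1 := pow_le_one₀ hxN0.le hxN1
    calc (L : ℝ) ^ d * (x ^ N * (x ^ N) ^ 2) ≤
        1 / lam ^ (N2) * (lam ^ (P1 + N2) * 1) := by gcongr
      _ = lam ^ P1 := by
          rw [pow_add]
          field_simp
  have hx3 : x ^ (3 * 2 ^ bq) ≤ lam ^ (N2 + (2 * N2 + N + P1 + 1)) :=
    x1.trans (pow_le_pow_of_le_one hl.le hl1 (by omega))
  have e0 : ∀ y : ℝ, y / (1 / x) ^ (3 * 2 ^ bq) = y * x ^ (3 * 2 ^ bq) := by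
    intro y
    rw [one_div, inv_pow, div_inv_eq_mul]
  have hpO : pG + (J + 1) * (L : ℝ) ^ d * K0 g0 / (1 / x) ^ (3 * 2 ^ bq) ≤
      (1 + (J + 1) * K0 g0) * lam ^ (2 * N2 + N + P1 + 1) := by
    rw [e0]
    have y1 : pG ≤ lam ^ (2 * N2 + N + P1 + 1) :=
      h.pG1.trans (pow_le_pow_of_le_one hl.le hl1 hp)
    calc pG + (J + 1) * (L : ℝ) ^ d * K0 g0 * x ^ (3 * 2 ^ bq) ≤
        lam ^ (2 * N2 + N + P1 + 1) + (J + 1) * (1 / lam ^ (N2)) * K0 g0 *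
          lam ^ (N2 + (2 * N2 + N + P1 + 1)) := by gcongr
      _ = _ := by
          rw [pow_add lam (N2)]
          field_simp
  have hpO0 : 0 ≤ pG + (J + 1) * (L : ℝ) ^ d * K0 g0 / (1 / x) ^ (3 * 2 ^ bq) := by positivity
  have hL6 : ((L : ℝ) ^ d) ^ 2 ≤ 1 / lam ^ (2 * N2) := by
    calc ((L : ℝ) ^ d) ^ 2 ≤ (1 / lam ^ (N2)) ^ 2 := by gcongr
      _ = _ := by
          rw [div_pow, one_pow, ← pow_mul]
          congr 2
          ring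
  have hxl : lam ^ N ≤ x ^ N := by gcongr
  have t2 : N * (32 * (N : ℝ) ^ 2 * ((L : ℝ) ^ d) ^ 2 * (2 ^ N) ^ 2 *
        (pG + (J + 1) * (L : ℝ) ^ d * K0 g0 / (1 / x) ^ (3 * 2 ^ bq))) / x ^ N ≤ lam ^ P1 := by
    calc N * (32 * (N : ℝ) ^ 2 * ((L : ℝ) ^ d) ^ 2 * (2 ^ N) ^ 2 *
        (pG + (J + 1) * (L : ℝ) ^ d * K0 g0 / (1 / x) ^ (3 * 2 ^ bq))) / x ^ N ≤
        N * (32 * (N : ℝ) ^ 2 * (1 / lam ^ (2 * N2)) * (2 ^ N) ^ 2 *
        ((1 + (J + 1) * K0 g0) * lam ^ (2 * N2 + N + P1 + 1))) / lam ^ N := by gcongr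
      _ = (32 * (N : ℝ) ^ 3 * (2 ^ N) ^ 2 * (1 + (J + 1) * K0 g0) * lam) * lam ^ P1 := by
          rw [show 2 * N2 + N + P1 + 1 = 2 * N2 + (N + (P1 + 1)) by ring, pow_add lam (2 * N2),
            pow_add lam N, pow_succ]
          field_simp
          ring
      _ ≤ (32 * (N : ℝ) ^ 3 * (2 ^ N) ^ 2 * (1 + (J + 1) * K0 g0) * x) * lam ^ P1 := by gcongr
      _ ≤ 1 * lam ^ P1 := by gcongr
      _ = lam ^ P1 := one_mul _
  rw [add_div]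
  linarith

end Pool.Agent.V8H95.ND
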