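import Pool.Agent.V8H95.ND.Ev
import Pool.Agent.V8H95.NE.Oq

/-!
The event at one energy, for approximate eigenfunctions; the lowest energies.
-/

set_option autoImplicit false
set_option linter.unusedSectionVars false
set_option linter.unusedVariables false

open Complex MeasureTheory
open scoped BigOperators ComplexConjugate

namespace Pool.Agent.V8H95.ND

open Pool.Agent.H4R2.AE Pool.Agent.V8H99.AD Pool.Agent.V8H95.MF Pool.Agent.V8H95.BW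
open Pool.Agent.V8H95.EF Pool.Agent.V8H95.NM Pool.Agent.V8H95.NE

theorem one_e_q {d L : ℕ} [NeZero L] (μ : Measure ℝ) [IsProbabilityMeasure μ]
    (hμ : μ (Set.Icc (-1) 1)ᶜ = 0) {Cg Cs A : ℝ}
    {g0 bq J Q N2 p : ℕ} {lam c0 θ mg κ x ϑ : ℝ} (G : Set (T d L → ℝ))
    (h : Sm d L Cg Cs A g0 bq J Q N2 p lam c0 θ mg κ x ϑ 1 1
      ((Measure.pi fun _ : T d L => μ).real Gᶜ))
    (hGm : MeasurableSet G) (hG : ∀ V ∈ G, ∃ ψ : T d L → ℝ, Gd lam c0 θ mg V ψ)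
    (hGG : GGb d Cg) (hIN : INb d A) (hRC : RCb d Cs g0) (N : ℕ) (hN : 1 ≤ N)
    (z10 : (4 * A + 1 + 32 * (N : ℝ) ^ 2 * A) * x ≤ 1) (z11 : 5000 * x ≤ 1) :
    ∃ S : Set (T d L → ℝ), MeasurableSet S ∧ (Measure.pi fun _ : T d L => μ).real Sᶜ ≤
      ((L : ℝ) ^ d * (x ^ 4) ^ N + N * (32 * (N : ℝ) ^ 2 * ((L : ℝ) ^ d) ^ 2 * (2 ^ N) ^ 2 *
        ((Measure.pi fun _ : T d L => μ).real Gᶜ +
          (J + 1) * (L : ℝ) ^ d * K0 g0 / (1 / x) ^ (3 * 2 ^ bq)))) / x ^ N ∧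
      ∀ V ∈ S, ∀ (ψ : XT d L) (E r : ℝ), 0 ≤ r →
        ‖HC lam V ψ - ((E : ℝ) : ℂ) • ψ‖ ≤ r * et lam κ x → ‖ψ‖ = 1 →
        |E - (c0 + κ ^ 2)| ≤ et lam κ x / 2 → ∀ (R : ℕ) (x0 : T d L),
        ‖rs (fun y => nn (y - x0) ≤ R) ψ‖ ^ 2 ≤
          8 * (d : ℝ) ^ 2 * ((2 * R + 1) * (8 * √(d : ℝ) * et lam κ x / κ + 1 / L)) +
            48 * (x + r ^ 2) := by
  set P : Measure (T d L → ℝ) := Measure.pi fun _ : T d L => μ with hP
  have hx := h.x0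
  have hx1 := h.x1
  have hκ := h.k0
  have hl := h.lam0
  have hA := h.A1
  have hA0 : 0 < A := by linarith
  have hη := h.et0
  obtain ⟨ρ, hρx, hρe, hB⟩ := bh_ok μ G h hGm hG κ (by linarith) (by linarith)
  have hρ0 := hB.r0
  have hρ1 := hB.r1
  have H1' : lam * (Cg / √κ + 2 / ρ * ((J + 2) * (1 / x * (A * κ) / ρ))) ≤ 1 / 4 := by
    obtain ⟨hke3, hkex, hke0⟩ := h.ke κ (by linarith)
    have hCg := h.Cg1
    have a1 : lam / x ^ 7 ≤ √κ := by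
      apply Real.le_sqrt_of_sq_le
      rw [div_pow, div_le_iff₀ (by positivity)]
      calc lam ^ 2 ≤ κ * x ^ 16 := h.klo
        _ ≤ κ * (x ^ 7) ^ 2 := by
            have : x ^ 16 ≤ (x ^ 7) ^ 2 := by
              rw [← pow_mul]
              exact pow_le_pow_of_le_one hx.le h.x1 (by norm_num)
            gcongr
    have hx2 : x ≤ 1 / 5000 := by linarith
    have hxx : x ^ 6 ≤ 1 / 2 := by
      calc x ^ 6 ≤ x ^ 1 := pow_le_pow_of_le_one hx.le h.x1 (by norm_num)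
        _ = x := pow_one x
        _ ≤ 1 / 2 := by linarith
    have a2 : lam * (Cg / √κ) ≤ 1 / 8 := by
      have e1 : lam * (Cg / (lam / x ^ 7)) = Cg * x ^ 7 := by field_simp
      calc lam * (Cg / √κ) ≤ lam * (Cg / (lam / x ^ 7)) := by gcongr
        _ = Cg * x ^ 7 := e1
        _ = (Cg * x) * x ^ 6 := by ring
        _ ≤ (Cg * x) * (1 / 2) := by gcongr
        _ ≤ 1 / 8 := by linarith [h.z3]
    have h3 : A * κ ≤ 1 := by
      have := h.k1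
      linarith
    have hx12 : x ^ 12 ≤ 1 / 2 := by
      calc x ^ 12 ≤ x ^ 1 := pow_le_pow_of_le_one hx.le h.x1 (by norm_num)
        _ = x := pow_one x
        _ ≤ 1 / 2 := by linarith
    have a3 : lam * (2 / ρ * ((J + 2) * (1 / x * (A * κ) / ρ))) ≤ 1 / 8 := by
      calc lam * (2 / ρ * ((J + 2) * (1 / x * (A * κ) / ρ))) ≤
          x ^ 16 * (2 / x * ((J + 2) * (1 / x * 1 / x))) := by
            have := h.lx
            gcongr
        _ = (2 * (J + 2) * x) * x ^ 12 := by field_simp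
        _ ≤ (2 * (J + 2) * x) * (1 / 2) := by gcongr
        _ ≤ 1 / 8 := by linarith [h.z4]
    rw [mul_add]
    linarith
  obtain ⟨hvar, O, hOm, hOP, hO⟩ := descent2 hB hA h.Cs1 hGG hIN hRC h.J1 H1'
  have hcx := next_cx hB hA J le_rfl hvar
  have hκ4 := kap_le hB hA
  set z := ze c0 κ ρ J with hzd
  have hzi : z.im = κ ^ 2 * ρ ^ J := ze_im _ _ _ _
  have hze : z.im = et lam κ x := hzi.trans hρe
  have hzr : z.re = c0 + κ ^ 2 := zz_re _ _ _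
  have hz0 : 0 < z.im := by rw [hze]; exact hη
  obtain ⟨s, hs⟩ : ∃ s, s = 4 * lam ^ 2 * (1 / x * (A * κ) / ρ ^ 2) / (κ ^ 2 * ρ ^ J) := ⟨_, rfl⟩
  rw [← hs] at hvar hcx
  have hb : lam ^ 2 * (1 / x * (A * κ) / ρ ^ 2) / et lam κ x ≤ A * x ^ 5 := by
    calc lam ^ 2 * (1 / x * (A * κ) / ρ ^ 2) / et lam κ x ≤
        lam ^ 2 * (1 / x * (A * κ) / x ^ 2) / et lam κ x := by gcongr
      _ = A * x ^ 5 := by
          unfold et
          field_simp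
  have hs1 : s ≤ 4 * A * x ^ 5 := by
    rw [hs, hρe]
    calc 4 * lam ^ 2 * (1 / x * (A * κ) / ρ ^ 2) / et lam κ x =
        4 * (lam ^ 2 * (1 / x * (A * κ) / ρ ^ 2) / et lam κ x) := by ring
      _ ≤ 4 * (A * x ^ 5) := by gcongr
      _ = _ := by ring
  have hs0 : 0 < s := by
    rw [hs]
    positivity
  obtain ⟨K, hK⟩ : ∃ K, K = 16 * lam ^ 2 * (1 / x * (A * κ) / ρ) / z.im := ⟨_, rfl⟩
  have hK0 : 0 ≤ K := by
    rw [hK]
    positivity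
  have hK1 : K ≤ 16 * A * x ^ 5 := by
    rw [hK, hze]
    have h1 : 1 / x * (A * κ) / ρ ≤ 1 / x * (A * κ) / ρ ^ 2 := by
      have : ρ ^ 2 ≤ ρ := by nlinarith
      gcongr
    calc 16 * lam ^ 2 * (1 / x * (A * κ) / ρ) / et lam κ x ≤
        16 * lam ^ 2 * (1 / x * (A * κ) / ρ ^ 2) / et lam κ x := by gcongr
      _ = 16 * (lam ^ 2 * (1 / x * (A * κ) / ρ ^ 2) / et lam κ x) := by ring
      _ ≤ 16 * (A * x ^ 5) := by gcongr
      _ = _ := by ring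
  have hxe : x * z.im ^ 2 ≤ x ^ 5 := by
    rw [hze]
    have h1 := h.et_le
    have h2 : et lam κ x ≤ x ^ 8 * 1 := by
      refine h1.trans ?_
      have : κ ^ 2 ≤ 1 := pow_le_one₀ hκ.le (by linarith)
      gcongr
    calc x * et lam κ x ^ 2 ≤ x * (x ^ 8 * 1) ^ 2 := by gcongr
      _ = x ^ 17 := by ring
      _ ≤ x ^ 5 := pow_le_pow_of_le_one hx.le h.x1 (by norm_num)
  have hS := conc μ (Fo μ lam z) (Fo_cont μ lam hz0) (Fo_sa μ lam hz0) (Fo_norm μ lam hz0) hμ O hOm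
    (s + x * z.im ^ 2) K (x ^ 4) (by positivity) hK0
    (Fo_var μ lam hz0 s x hs0.le hx.le hvar)
    (fun V hV c hc u => by
      obtain ⟨o1, o2, o3⟩ := hO V hV
      rw [hK]
      exact Fo_sf μ lam hl.le hz0 V o1 o2 _ o3 c (abs_le.2 hc) u) N hN (by
      calc s + x * z.im ^ 2 + 2 * (N : ℝ) ^ 2 * K ≤
          4 * A * x ^ 5 + x ^ 5 + 2 * (N : ℝ) ^ 2 * (16 * A * x ^ 5) := by gcongr
        _ = ((4 * A + 1 + 32 * (N : ℝ) ^ 2 * A) * x) * x ^ 4 := by ring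
        _ ≤ 1 * x ^ 4 := by gcongr
        _ = x ^ 4 := one_mul _) (pow_le_one₀ hx.le hx1) (√x) (Real.sqrt_pos.2 hx)
  obtain ⟨S, hSm, hSP, hS⟩ := hS
  rw [Real.sq_sqrt hx.le] at hSP
  refine ⟨S, hSm, ?_, ?_⟩
  · refine hSP.trans ?_
    have := hOP
    gcongr
  · intro V hV ψ E r hr0 hE hψ hc R x0
    have hF := hS V hV ψ hψ
    rw [Real.sq_sqrt hx.le] at hF
    have hv := h.hv
    have h1 := eig_cube_q hcx hzi (by have := h.d3; omega) ϑ h.thv (by linarith [h.thv]) h.hvd (by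
        rw [hs]
        exact hB.H2) (by
        nlinarith) (by
        rw [hρe]
        have h1 := h.et_le
        have h2 : x ^ 8 ≤ 1 / 5000 := by
          calc x ^ 8 ≤ x ^ 1 := pow_le_pow_of_le_one hx.le h.x1 (by norm_num)
            _ = x := pow_one x
            _ ≤ 1 / 5000 := by linarith
        have h3 : x ^ 8 * κ ^ 2 ≤ 1 / 5000 * κ ^ 2 := by gcongr
        nlinarith [sq_nonneg κ]) κ hκ rfl V ψ E r hr0 (by rw [hρe]; exact hE) hψ (by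
        rw [hzr, hρe]
        exact hc) x hF R x0
    rw [hρe] at h1
    exact h1


/-- the constant of the spectral density -/
def SPb (d : ℕ) (C : ℝ) : Prop := ∀ (L : ℕ) [NeZero L] (lam c0 η m : ℝ) (V ψ : T d L → ℝ),
    Gd lam c0 η m V ψ → ∀ (b : OrthonormalBasis (T d L) ℂ (XT d L)) (E : T d L → ℝ),
    (∀ α, HC lam V (b α) = ((E α : ℝ) : ℂ) • b α) → ∀ (x : T d L) (r : ℝ), 0 < r →
    (∑ α, if E α - c0 ≤ r ^ 2 then ‖(inner ℂ (b α) (es x) : ℂ)‖ ^ 2 else 0) ≤ C * r ^ d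

theorem low_pt_q {d : ℕ} {C : ℝ} (hC0 : 0 ≤ C) (hC : SPb d C) {L : ℕ} [NeZero L]
    {lam c0 η m : ℝ} {V φ : T d L → ℝ}
    (h : Gd lam c0 η m V φ) (u : XT d L) (hu : ‖u‖ = 1) (E : ℝ) (κ : ℝ) (hκ : 0 < κ)
    (hEκ : E ≤ c0 + κ ^ 2) (x : T d L) : ‖u x‖ ^ 2 ≤
      2 * C * (2 * κ) ^ d + 2 * ‖HC lam V u - ((E : ℝ) : ℂ) • u‖ ^ 2 / κ ^ 4 := by
  classical
  obtain ⟨b, E', hb⟩ := exists_basis lam V
  have hr0 : 0 < 2 * κ := by positivity
  have hS := hC L lam c0 η m V φ h b E' hb x (2 * κ) hr0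
  obtain ⟨r, hr⟩ : ∃ r, r = HC lam V u - ((E : ℝ) : ℂ) • u := ⟨_, rfl⟩
  rw [← hr]
  set p : T d L → ℝ := fun α => ‖(inner ℂ (b α) (es x) : ℂ)‖ with hp
  set q : T d L → ℝ := fun α => ‖(inner ℂ (b α) u : ℂ)‖ with hq
  have hp1 : ∑ α, p α ^ 2 = 1 := wsum b E' hb x
  have hq1 : ∑ α, q α ^ 2 = 1 := by
    have := b.sum_sq_norm_inner_right u
    rw [hu, one_pow] at this
    exact this
  have hux : ‖u x‖ ≤ ∑ α, p α * q α := by
    rw [← inner_es x u, ← b.sum_inner_mul_inner]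
    refine (norm_sum_le _ _).trans (le_of_eq ?_)
    refine Finset.sum_congr rfl fun α _ => ?_
    rw [norm_mul]
    congr 1
    rw [← inner_conj_symm, Complex.norm_conj]
  have hrq : ∑ α, (E' α - E) ^ 2 * q α ^ 2 = ‖r‖ ^ 2 := by
    rw [← b.sum_sq_norm_inner_right r]
    refine Finset.sum_congr rfl fun α _ => ?_
    have e : (inner ℂ (b α) r : ℂ) = ((E' α - E : ℝ) : ℂ) * inner ℂ (b α) u := by
      rw [hr, inner_sub_right, inner_smul_right, ← HC_symm, hb, inner_smul_left,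
        Complex.conj_ofReal]
      push_cast
      ring
    rw [e, norm_mul, mul_pow, Complex.norm_real, Real.norm_eq_abs, sq_abs]
  have h1 : ∑ α, p α * q α ≤ ∑ α, (if E' α - c0 ≤ (2 * κ) ^ 2 then p α else 0) * q α +
      ∑ α, p α * (if E' α - c0 ≤ (2 * κ) ^ 2 then 0 else q α) := by
    rw [← Finset.sum_add_distrib]
    refine Finset.sum_le_sum fun α _ => ?_
    split_ifs
    · rw [mul_zero, add_zero]
    · rw [zero_mul, zero_add]
  have h2 : ∑ α, (if E' α - c0 ≤ (2 * κ) ^ 2 then p α else 0) * q α ≤ √(C * (2 * κ) ^ d) := by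
    refine (cs_P _ _ _).trans ?_
    rw [hq1, Real.sqrt_one, mul_one]
    apply Real.sqrt_le_sqrt
    refine le_trans (le_of_eq ?_) hS
    refine Finset.sum_congr rfl fun α _ => ?_
    split_ifs
    · rfl
    · norm_num
  have h3 : ∑ α, p α * (if E' α - c0 ≤ (2 * κ) ^ 2 then 0 else q α) ≤ √(‖r‖ ^ 2 / κ ^ 4) := by
    refine (cs_P _ _ _).trans ?_
    rw [hp1, Real.sqrt_one, one_mul]
    apply Real.sqrt_le_sqrt
    rw [le_div_iff₀ (by positivity), ← hrq, Finset.sum_mul]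
    refine Finset.sum_le_sum fun α _ => ?_
    split_ifs with h4
    · have : 0 ≤ (E' α - E) ^ 2 * q α ^ 2 := by positivity
      calc (0 : ℝ) ^ 2 * κ ^ 4 = 0 := by ring
        _ ≤ _ := this
    · push Not at h4
      have h5 : κ ^ 2 ≤ E' α - E := by nlinarith [sq_nonneg κ]
      have h6 : (κ ^ 2) ^ 2 ≤ (E' α - E) ^ 2 := by gcongr
      have h7 : 0 ≤ q α ^ 2 := by positivity
      calc q α ^ 2 * κ ^ 4 = (κ ^ 2) ^ 2 * q α ^ 2 := by ring
        _ ≤ _ := by gcongr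
  have h4 : ‖u x‖ ≤ √(C * (2 * κ) ^ d) + √(‖r‖ ^ 2 / κ ^ 4) := by linarith
  have h5 := pow_le_pow_left₀ (norm_nonneg _) h4 2
  have h6 : √(C * (2 * κ) ^ d) ^ 2 = C * (2 * κ) ^ d := Real.sq_sqrt (by positivity)
  have h7 : √(‖r‖ ^ 2 / κ ^ 4) ^ 2 = ‖r‖ ^ 2 / κ ^ 4 := Real.sq_sqrt (by positivity)
  have h8 : (√(C * (2 * κ) ^ d) + √(‖r‖ ^ 2 / κ ^ 4)) ^ 2 ≤
      2 * √(C * (2 * κ) ^ d) ^ 2 + 2 * √(‖r‖ ^ 2 / κ ^ 4) ^ 2 := by
    nlinarith [sq_nonneg (√(C * (2 * κ) ^ d) - √(‖r‖ ^ 2 / κ ^ 4))]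
  rw [h6, h7] at h8
  calc ‖u x‖ ^ 2 ≤ _ := h5
    _ ≤ _ := h8
    _ = _ := by ring

end Pool.Agent.V8H95.ND
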