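import Pool.Agent.V8H99.AD.Param
import Pool.Agent.V8H95.NM.Par6

/-!
The good event on tori of polynomial size.
-/

set_option autoImplicit false
set_option linter.unusedSectionVars false
set_option linter.unusedVariables false

open scoped BigOperators
open MeasureTheory

namespace Pool.Agent.V8H95.ND

open Pool.Agent.H4R2.AE Pool.Agent.V8H99.AD Pool.Agent.V8H95.NM

theorem exp_poly (M : ℕ) (t : ℝ) (ht : 0 < t) : Real.exp (-t) ≤ (M.factorial : ℝ) / t ^ M := by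
  have h1 := Real.pow_div_factorial_le_exp t ht.le M
  have h2 : (0 : ℝ) < M.factorial := by exact_mod_cast Nat.factorial_pos M
  rw [Real.exp_neg, inv_eq_one_div, div_le_div_iff₀ (Real.exp_pos _) (by positivity), one_mul]
  rw [div_le_iff₀ h2] at h1
  linarith

/-- the exponents in dimension at least four -/
theorem par_poly (d : ℕ) (hd : 4 ≤ d) (δ : ℝ) (hδ : 0 < δ) (hδ1 : δ ≤ 1 / 8) (N : ℕ) :
    ∃ b lam0 : ℝ, 0 < b ∧ 0 < lam0 ∧ lam0 ≤ 1 ∧ ∀ lam : ℝ, 0 < lam → lam ≤ lam0 →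
    ∀ (L : ℕ) [NeZero L], 1 / lam ^ 3 ≤ (L : ℝ) → (L : ℝ) ≤ 1 / lam ^ N →
    ∃ p R θ : ℝ, 1 < p ∧ 0 ≤ R ∧ 0 < θ ∧
      (∀ (u Gr : T d L → ℝ) (x0 : T d L), (∀ x, 1 / 2 ≤ u x) → (∀ x, 0 ≤ Gr x) →
      (∀ x, LapW u Gr x + lam ^ 4 * Real.exp (-(4 * δ)) * Gr x =
        if x = x0 then 1 else 0) →
      ∀ θ : ℝ, 0 < θ → ∑ z, min ((θ * Gr z) ^ 2) (θ * Gr z) ≤ R * θ ^ p) ∧
      -(θ * δ) + R * (6 * lam * θ) ^ p / (p - 1) ≤ -b / lam := by
  have hk : ∀ lam : ℝ, 0 < lam → lam ≤ 1 → ∀ (L : ℕ) [NeZero L], 1 / lam ^ 3 ≤ (L : ℝ) →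
      1 / (8 * (L : ℝ) ^ 2) ≤ lam ^ 4 * Real.exp (-(4 * δ)) := by
    intro lam hlam hl1 L _ hL
    have hL0 : (0 : ℝ) < L := by exact_mod_cast NeZero.pos L
    have he : (1 / 8 : ℝ) ≤ Real.exp (-(4 * δ)) := by
      have := Real.add_one_le_exp (-(4 * δ))
      linarith
    have h1 : (1 / lam ^ 3) ^ 2 ≤ (L : ℝ) ^ 2 := by gcongr
    have h2 : 1 / (L : ℝ) ^ 2 ≤ lam ^ 4 := by
      rw [div_le_iff₀ (by positivity)]
      have h3 : lam ^ 4 * (1 / lam ^ 3) ^ 2 ≤ lam ^ 4 * (L : ℝ) ^ 2 := by gcongr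
      have h4 : lam ^ 4 * (1 / lam ^ 3) ^ 2 = 1 / lam ^ 2 := by
        field_simp
      have h5 : 1 ≤ 1 / lam ^ 2 := by
        rw [le_div_iff₀ (by positivity), one_mul]
        exact pow_le_one₀ hlam.le hl1
      linarith
    calc 1 / (8 * (L : ℝ) ^ 2) = 1 / (L : ℝ) ^ 2 * (1 / 8) := by field_simp
      _ ≤ _ := by gcongr
  by_cases h4 : d = 4
  · subst h4
    obtain ⟨A, hA, HA⟩ := green4
    obtain ⟨b, hb, hb1, Hb⟩ := Arith2.site_four A δ hA hδ
    obtain ⟨c, hc⟩ : ∃ c : ℝ, c = b ^ (N + 1) / ((N + 1).factorial : ℝ) := ⟨_, rfl⟩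
    have hfac : (0 : ℝ) < (N + 1).factorial := by exact_mod_cast Nat.factorial_pos _
    have hc0 : 0 < c := by rw [hc]; positivity
    refine ⟨δ / 2, min b c, by positivity, by positivity, (min_le_left _ _).trans hb1, ?_⟩
    intro lam hlam hlam0 L _ hL1 hL2
    have hlb : lam ≤ b := hlam0.trans (min_le_left _ _)
    have hlc : lam ≤ c := hlam0.trans (min_le_right _ _)
    have hl1 : lam ≤ 1 := hlb.trans hb1
    have hLn : 1 ≤ L := NeZero.one_le
    have hLexp : (L : ℝ) ≤ Real.exp (b / lam) := by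
      refine hL2.trans ?_
      have h1 := Real.pow_div_factorial_le_exp (b / lam) (by positivity) (N + 1)
      refine le_trans ?_ h1
      rw [div_pow, div_div, div_le_div_iff₀ (by positivity) (by positivity), one_mul, pow_succ lam N]
      have h2 : lam * ((N + 1).factorial : ℝ) ≤ b ^ (N + 1) := by
        rw [hc, le_div_iff₀ hfac] at hlc
        exact hlc
      calc lam ^ N * lam * ((N + 1).factorial : ℝ) = lam ^ N * (lam * ((N + 1).factorial : ℝ)) := by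
            ring
        _ ≤ lam ^ N * b ^ (N + 1) := by gcongr
        _ = _ := by ring
    obtain ⟨θ, hθ, hθ2⟩ := Hb lam hlam hlb L hLn hLexp
    have hlog : 0 ≤ Real.log (L : ℝ) := Real.log_nonneg (by exact_mod_cast hLn)
    refine ⟨2, A * (1 + 4 * Real.log (L : ℝ)), θ, by norm_num, by positivity, hθ, ?_, ?_⟩
    · exact HA L _ (hk lam hlam hl1 L hL1)
    · exact hθ2
  · have hd5 : 5 ≤ d := by omega
    obtain ⟨R, hR, HR⟩ := green5 d hd5
    obtain ⟨b, hb, Hb⟩ := Arith2.site_five d hd5 R δ hR hδ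
    refine ⟨b, 1, hb, one_pos, le_rfl, ?_⟩
    intro lam hlam hl1 L _ hL1 hL2
    obtain ⟨θ, hθ, hθ2⟩ := Hb lam hlam
    refine ⟨Arith2.pe d, R, θ, Arith2.pe_gt_one d (by omega), hR, hθ, ?_, ?_⟩
    · exact HR L _ (hk lam hlam hl1 L hL1)
    · refine hθ2.trans ?_
      rw [neg_div, neg_div, neg_le_neg_iff]
      have h1 : scaleS d lam ≤ lam := by
        unfold scaleS
        rw [if_neg h4]
        have h2 : √lam ≤ 1 := Real.sqrt_le_one.2 hl1
        have h3 : √lam ^ d ≤ √lam ^ 2 := pow_le_pow_of_le_one (Real.sqrt_nonneg _) h2 (by omega)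
        rwa [Real.sq_sqrt hlam.le] at h3
      have h2 : 0 < scaleS d lam := Arith2.scaleS_pos d lam hlam
      gcongr

/-- **the good event** -/
theorem tev (d : ℕ) (hd : 3 ≤ d) (N p : ℕ) (δ a1 : ℝ) (hδ : 0 < δ) (hδ1 : δ ≤ 1 / 8)
    (ha : 0 < a1) (ha1 : a1 ≤ 1 / 2) :
    ∃ lam0 : ℝ, 0 < lam0 ∧ ∀ (μ : Measure ℝ) [IsProbabilityMeasure μ], ∀ lam : ℝ, 0 < lam →
    lam ≤ lam0 → ∀ (L : ℕ) [NeZero L], 1 / lam ^ 3 ≤ (L : ℝ) → (L : ℝ) ≤ 1 / lam ^ N →
    ∃ E m : ℝ, |E| ≤ lam ∧ 1 / (L : ℝ) ^ 2 ≤ m ∧ m ≤ lam ^ 4 / (lam ^ a1) ^ 4 ∧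
      ∃ G : Set (T d L → ℝ), MeasurableSet G ∧
      (Measure.pi fun _ : T d L => μ).real Gᶜ ≤ lam ^ p ∧
      ∀ V ∈ G, (∀ x, |V x| ≤ 1) → ∃ w : T d L → ℝ, (∀ x, |w x| ≤ δ) ∧ MassEq lam E m V w := by
  by_cases h3 : d = 3
  · subst h3
    obtain ⟨P, hP⟩ : ∃ P : ℕ, P = N + p := ⟨_, rfl⟩
    obtain ⟨k', K', hk', hK', HE⟩ := torus_event 3 le_rfl P
    refine ⟨min (min (min (1 / 3) (δ / K')) (min (δ / 3) (1 / k'))) ((k' * δ ^ 2 * a1) ^ (1 / a1)),
      by positivity, ?_⟩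
    intro μ _ lam hlam hlam0 L _ hL1 hL2
    have q1 : lam ≤ 1 / 3 :=
      hlam0.trans ((min_le_left _ _).trans ((min_le_left _ _).trans (min_le_left _ _)))
    have q2 : lam ≤ δ / K' :=
      hlam0.trans ((min_le_left _ _).trans ((min_le_left _ _).trans (min_le_right _ _)))
    have q3 : lam ≤ δ / 3 :=
      hlam0.trans ((min_le_left _ _).trans ((min_le_right _ _).trans (min_le_left _ _)))
    have q4 : lam ≤ 1 / k' :=
      hlam0.trans ((min_le_left _ _).trans ((min_le_right _ _).trans (min_le_right _ _)))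
    have q5 : lam ≤ (k' * δ ^ 2 * a1) ^ (1 / a1) := hlam0.trans (min_le_right _ _)
    have hl1 : lam ≤ 1 := by linarith
    obtain ⟨x, hx⟩ : ∃ x : ℝ, x = lam ^ a1 := ⟨_, rfl⟩
    have hxp : 0 < x := by rw [hx]; positivity
    have hKl : K' * lam ≤ δ := by
      rw [le_div_iff₀ (by positivity)] at q2
      linarith
    have h3l : 3 * lam ≤ δ := by linarith
    have hkl : k' * lam ≤ 1 := by
      rw [le_div_iff₀ hk'] at q4
      linarith
    have t24 : x ≤ k' * δ ^ 2 * a1 := by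
      have h1 : lam ^ a1 ≤ ((k' * δ ^ 2 * a1) ^ (1 / a1)) ^ a1 :=
        Real.rpow_le_rpow hlam.le q5 ha.le
      rwa [← Real.rpow_mul (by positivity), one_div_mul_cancel ha.ne', Real.rpow_one, ← hx] at h1
    have hlx2 : lam ≤ x ^ 2 := by
      rw [hx, ← Real.rpow_natCast, ← Real.rpow_mul hlam.le]
      calc lam = lam ^ (1 : ℝ) := (Real.rpow_one lam).symm
        _ ≤ lam ^ (a1 * ((2 : ℕ) : ℝ)) := Real.rpow_le_rpow_of_exponent_ge hlam hl1 (by
            push_cast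
            linarith)
    obtain ⟨ℓ', hℓ'⟩ : ∃ ℓ', ℓ' = scl 3 k' (δ / lam) := ⟨_, rfl⟩
    have g2 : x ^ 2 / lam ^ 2 ≤ ℓ' := by
      have h1 := scl3_ge' k' δ lam a1 hk' hδ (by linarith) hlam q1 h3l ha
      rw [← hx, ← hℓ'] at h1
      refine le_trans ?_ h1
      rw [pow_two x]
      gcongr
    have g4 : ℓ' ≤ 1 / lam ^ 3 := by
      rw [hℓ']
      exact scl3_le k' δ lam hk' hδ (by linarith) hlam h3l hkl
    have g5 : 1 / lam ≤ x ^ 2 / lam ^ 2 := by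
      rw [div_le_div_iff₀ hlam (by positivity)]
      calc 1 * lam ^ 2 = lam * lam := by ring
        _ ≤ x ^ 2 * lam := by gcongr
    have hℓ'0 : 0 < ℓ' := lt_of_lt_of_le (by positivity) g2
    have hℓ'l : 1 / lam ≤ ℓ' := g5.trans g2
    have hℓ1 : 1 ≤ ℓ' := by
      refine le_trans ?_ hℓ'l
      rw [le_div_iff₀ hlam]
      linarith
    have hLe : (L : ℝ) ≤ 2 * ℓ' ^ (P + 2) := by
      have h1 : 1 / lam ^ N ≤ ℓ' ^ (P + 2) := by
        calc 1 / lam ^ N = (1 / lam) ^ N := by rw [div_pow, one_pow]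
          _ ≤ ℓ' ^ N := by gcongr
          _ ≤ ℓ' ^ (P + 2) := pow_le_pow_right₀ hℓ1 (by omega)
      have h2 : 0 < ℓ' ^ (P + 2) := by positivity
      linarith
    have hℓL : ℓ' ≤ L := g4.trans hL1
    have hL0 : (0 : ℝ) < L := by exact_mod_cast NeZero.pos L
    rw [hℓ'] at hℓ1 hLe hℓL
    obtain ⟨E, hE, G, hGm, hGP, hG⟩ := HE μ lam δ hlam hKl hδ1 L hℓ1 hLe hℓL
    rw [← hℓ'] at hℓ1 hLe hℓL hGP hG
    refine ⟨E, (ℓ' ^ 2)⁻¹, hE, ?_, ?_, G, hGm, ?_, hG⟩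
    · rw [← one_div]
      gcongr
    · rw [← hx, inv_le_comm₀ (by positivity) (by positivity)]
      calc (lam ^ 4 / x ^ 4)⁻¹ = (x ^ 2 / lam ^ 2) ^ 2 := by
            rw [inv_div, div_pow, ← pow_mul, ← pow_mul]
        _ ≤ ℓ' ^ 2 := by gcongr
    · refine hGP.trans ?_
      rw [inv_le_comm₀ (by positivity) (by positivity)]
      calc (lam ^ p)⁻¹ = (1 / lam) ^ p := by rw [div_pow, one_pow, one_div]
        _ ≤ ℓ' ^ p := by gcongr
        _ ≤ ℓ' ^ P := pow_le_pow_right₀ hℓ1 (by omega)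
  · have hd4 : 4 ≤ d := by omega
    obtain ⟨b, lam1, hb, hlam1, hlam11, H⟩ := par_poly d hd4 δ hδ hδ1 N
    obtain ⟨M, hM⟩ : ∃ M : ℕ, M = N * d + (p + 1) := ⟨_, rfl⟩
    obtain ⟨C, hC⟩ : ∃ C : ℝ, C = 2 * (M.factorial : ℝ) / b ^ M := ⟨_, rfl⟩
    have hfac : (0 : ℝ) < M.factorial := by exact_mod_cast Nat.factorial_pos _
    have hC0 : 0 < C := by rw [hC]; positivity
    refine ⟨min lam1 (1 / C), by positivity, ?_⟩
    intro μ _ lam hlam hlam0 L _ hL1 hL2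
    have q1 : lam ≤ lam1 := hlam0.trans (min_le_left _ _)
    have q2 : lam ≤ 1 / C := hlam0.trans (min_le_right _ _)
    have hl1 : lam ≤ 1 := q1.trans hlam11
    obtain ⟨p', R, θ, hp', hR, hθ, hG, hnum⟩ := H lam hlam q1 L hL1 hL2
    obtain ⟨E, hE, G, hGm, hP, hw⟩ := Goodt.good d L (lam ^ 4) (by positivity) p' R hp'
      hR μ lam δ hlam hδ hδ1 hG θ hθ
    have hL0 : (0 : ℝ) < L := by exact_mod_cast NeZero.pos L
    refine ⟨E, lam ^ 4, hE, ?_, ?_, G, hGm, ?_, ?_⟩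
    · rw [div_le_iff₀ (by positivity)]
      have h1 : (1 / lam ^ 3) ^ 2 ≤ (L : ℝ) ^ 2 := by gcongr
      have h3 : lam ^ 4 * (1 / lam ^ 3) ^ 2 ≤ lam ^ 4 * (L : ℝ) ^ 2 := by gcongr
      have h4 : lam ^ 4 * (1 / lam ^ 3) ^ 2 = 1 / lam ^ 2 := by
        field_simp
      have h5 : 1 ≤ 1 / lam ^ 2 := by
        rw [le_div_iff₀ (by positivity), one_mul]
        exact pow_le_one₀ hlam.le hl1
      linarith
    · rw [le_div_iff₀ (by positivity)]
      have h1 : (lam ^ a1) ^ 4 ≤ 1 :=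
        pow_le_one₀ (by positivity) (Real.rpow_le_one hlam.le hl1 ha.le)
      have h2 : 0 ≤ lam ^ 4 := by positivity
      calc lam ^ 4 * (lam ^ a1) ^ 4 ≤ lam ^ 4 * 1 := by gcongr
        _ = lam ^ 4 := mul_one _
    · refine hP.trans ?_
      have h1 : (L : ℝ) ^ d ≤ 1 / lam ^ (N * d) := by
        calc (L : ℝ) ^ d ≤ (1 / lam ^ N) ^ d := by gcongr
          _ = _ := by rw [div_pow, one_pow, ← pow_mul]
      have h2 : Real.exp (-(θ * δ) + R * (6 * lam * θ) ^ p' / (p' - 1)) ≤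
          (M.factorial : ℝ) / (b / lam) ^ M := by
        refine le_trans (Real.exp_le_exp.2 hnum) ?_
        rw [neg_div]
        exact exp_poly M (b / lam) (by positivity)
      have h3 : C * lam ≤ 1 := by
        rw [le_div_iff₀ hC0] at q2
        linarith
      calc (L : ℝ) ^ d * (2 * Real.exp (-(θ * δ) + R * (6 * lam * θ) ^ p' / (p' - 1))) ≤
          1 / lam ^ (N * d) * (2 * ((M.factorial : ℝ) / (b / lam) ^ M)) := by gcongr
        _ = (C * lam) * lam ^ p := by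
            rw [hC, div_pow]
            have e : lam ^ M = lam ^ (N * d) * (lam ^ p * lam) := by
              rw [hM, pow_add, pow_succ]
            rw [e]
            field_simp
        _ ≤ 1 * lam ^ p := by gcongr
        _ = lam ^ p := one_mul _
    · intro V hV hV1
      obtain ⟨w, hw1, hw2⟩ := hw V hV hV1
      exact ⟨w, hw1, hw2⟩

end Pool.Agent.V8H95.ND
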