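import Pool.Agent.V8H95.ND.Spe
import Pool.Agent.V8H95.NM.Boot

/-!
The descent in the imaginary part of the energy.
-/

set_option autoImplicit false
set_option linter.unusedSectionVars false
set_option linter.unusedVariables false

open Complex MeasureTheory
open scoped BigOperators ComplexConjugate

namespace Pool.Agent.V8H95.ND

open Pool.Agent.H4R2.AE Pool.Agent.V8H99.AD Pool.Agent.V8H95.MF Pool.Agent.V8H95.BW
open Pool.Agent.V8H95.EF Pool.Agent.V8H95.NM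

/-- a constant -/
noncomputable def DD (d : ℕ) : ℝ := 2 * (4 * (d : ℝ) + 6) ^ 2

/-- the hypotheses of the descent -/
structure Bh {d L : ℕ} [NeZero L] (μ : Measure ℝ) (Cg Cs A : ℝ) (g0 bq J : ℕ)
    (lam c0 θ mg κ ρ Λ ϑ δ T' : ℝ) (G : Set (T d L → ℝ)) : Prop where
  d3 : 3 ≤ d
  mx : MX d ≤ A
  lam0 : 0 ≤ lam
  lam1 : lam ≤ 1
  meas : MeasurableSet G
  good : ∀ V ∈ G, ∃ ψ : T d L → ℝ, Gd lam c0 θ mg V ψ
  th0 : 0 < θ
  thv : θ ≤ ϑ
  hv : ϑ ≤ 1 / 3000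
  hvd : ϑ * (1000 * (d : ℝ)) ≤ 1
  k0 : 0 < κ
  k1 : A * κ ≤ 1
  r0 : 0 < ρ
  r1 : ρ ≤ 1
  L1 : 1 ≤ Λ
  hJ : bq * J ≤ g0
  hb : 1 ≤ bq
  m0 : 0 ≤ mg
  hm : mg ≤ θ * κ ^ 2
  c : |c0| ≤ 3
  pG : (Measure.pi fun _ : T d L => μ).real Gᶜ * (100 * ((d : ℝ) + 1)) ≤
    θ * (κ ^ 2 * ρ ^ J) ^ 2 * κ ^ 2
  yL : κ ≤ κ ^ 2 * ρ ^ J * L
  kL : 2 ≤ κ * L
  hδ : (Measure.pi fun _ : T d L => μ).real Gᶜ +
    (J + 1) * (L : ℝ) ^ d * K0 g0 / Λ ^ (3 * 2 ^ bq) ≤ δ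
  H0 : (Measure.pi fun _ : T d L => μ).real Gᶜ ≤ κ ^ (9 * 2 ^ g0)
  H1 : lam * (Cg / √κ + 2 / ρ * ((J + 2) * (Λ * (A * κ) / ρ))) ≤ 1 / 2
  HT : 4 * lam ^ 2 / (κ ^ 2 * ρ ^ J) * ((L : ℝ) ^ d / (κ ^ 2 * ρ ^ J) ^ 2 *
    (Λ * (A * κ) / ρ ^ 2 * K0 g0 / Λ ^ (3 * 2 ^ bq))) +
    4 * (L : ℝ) ^ d / (κ ^ 2 * ρ ^ J) ^ 2 * δ ≤ T'
  H2 : 4 * lam ^ 2 * (Λ * (A * κ) / ρ ^ 2) / (κ ^ 2 * ρ ^ J) + DD d * T' ≤ ϑ ^ 2
  H3 : Cs * (2 * K0 g0) * (lam ^ 2 * (A * κ) / (ρ ^ 3 * (κ ^ 2 * ρ ^ J))) ≤ 1 / 2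
  H4a : Cs * ((L : ℝ) ^ d / (κ ^ 2 * ρ ^ J) ^ 2) ^ (2 ^ g0) *
    (Measure.pi fun _ : T d L => μ).real Gᶜ ≤ 1 / 4 * (A * κ) ^ (2 * 2 ^ g0)
  H4b : (L : ℝ) ^ d / (κ ^ 2 * ρ ^ J) ^ 2 ≤ (A * κ) ^ 2 * Λ ^ (2 ^ bq)
  H4c : Cs * ((J + 1) * (L : ℝ) ^ d * K0 g0) ≤ 1 / 4 * Λ ^ (2 ^ (bq - 1))

section
variable {d L : ℕ} [NeZero L] {μ : Measure ℝ} [IsProbabilityMeasure μ] {Cg Cs A : ℝ} {g0 bq J : ℕ}
  {lam c0 θ mg κ ρ Λ ϑ δ T' : ℝ} {G : Set (T d L → ℝ)}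

/-- the energies of the descent -/
noncomputable def ze (c0 κ ρ : ℝ) (j : ℕ) : ℂ := zz c0 (κ ^ 2) (κ ^ 2 * ρ ^ j)

theorem ze_im (c0 κ ρ : ℝ) (j : ℕ) : (ze c0 κ ρ j).im = κ ^ 2 * ρ ^ j := zz_im _ _ _

theorem ze_pos (hκ : 0 < κ) (hρ : 0 < ρ) (j : ℕ) : 0 < (ze c0 κ ρ j).im := by
  rw [ze_im]
  positivity

/-- the good potentials at scale `j` -/
def Oj (lam c0 κ ρ B0 : ℝ) (G : Set (T d L → ℝ)) (j : ℕ) : Set (T d L → ℝ) :=
  {V | V ∈ G ∧ ∀ i ∈ Finset.range (j + 1), ∀ x, XX lam (ze c0 κ ρ i) x V ≤ B0}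

theorem Oj_meas (hκ : 0 < κ) (hρ : 0 < ρ) (B0 : ℝ) (hG : MeasurableSet G) (j : ℕ) :
    MeasurableSet (Oj lam c0 κ ρ B0 G j) := by
  have e : Oj lam c0 κ ρ B0 G j = G ∩ ⋂ i ∈ Finset.range (j + 1), ⋂ x : T d L,
      {V | XX lam (ze c0 κ ρ i) x V ≤ B0} := by
    ext V
    simp only [Oj, Set.mem_inter_iff, Set.mem_iInter]
    exact Iff.rfl
  rw [e]
  refine hG.inter (Finset.measurableSet_biInter _ fun i _ => MeasurableSet.iInter fun x => ?_)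
  exact measurableSet_le (XX_cont lam (ze_pos hκ hρ i).ne' x).measurable measurable_const

theorem XX_trans_int (lam : ℝ) {z : ℂ} (hz : z.im ≠ 0) (y : T d L) (n : ℕ) :
    ∫ V, XX lam z y V ^ n ∂(Measure.pi fun _ : T d L => μ) =
      ∫ V, XX lam z 0 V ^ n ∂(Measure.pi fun _ : T d L => μ) := by
  rw [← trans_int μ (fun V => XX lam z 0 V ^ n) y]
  congr 1
  funext V
  rw [XX_trans lam hz, zero_add]

/-- the probability of the bad potentials -/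
theorem Oj_prob (hκ : 0 < κ) (hρ : 0 < ρ) (hA : 0 < A) (hΛ : 1 ≤ Λ) (hG : MeasurableSet G)
    (j : ℕ) (hj : j ≤ J)
    (hI : ∀ i ≤ j, ∫ V, XX lam (ze c0 κ ρ i) 0 V ^ (3 * 2 ^ (g0 - bq * i))
      ∂(Measure.pi fun _ : T d L => μ) ≤ K0 g0 * (A * κ) ^ (3 * 2 ^ (g0 - bq * i))) :
    (Measure.pi fun _ : T d L => μ).real (Oj lam c0 κ ρ (Λ * (A * κ)) G j)ᶜ ≤
      (Measure.pi fun _ : T d L => μ).real Gᶜ +
        (J + 1) * (L : ℝ) ^ d * K0 g0 / Λ ^ (3 * 2 ^ (g0 - bq * j)) := by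
  set P : Measure (T d L → ℝ) := Measure.pi fun _ : T d L => μ with hP
  set O := Oj lam c0 κ ρ (Λ * (A * κ)) G j with hO
  have hOm : MeasurableSet O := Oj_meas hκ hρ _ hG j
  have hΛ0 : 0 < Λ := by linarith
  have hAκ : 0 < A * κ := by positivity
  have hB : 0 < Λ * (A * κ) := by positivity
  have hK := K0_ge g0
  have hpt : ∀ V : T d L → ℝ, Oᶜ.indicator (fun _ => (1 : ℝ)) V ≤
      Gᶜ.indicator (fun _ => (1 : ℝ)) V + ∑ i ∈ Finset.range (j + 1), ∑ x : T d L,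
        (1 / (Λ * (A * κ)) ^ (3 * 2 ^ (g0 - bq * i))) * XX lam (ze c0 κ ρ i) x V ^ (3 * 2 ^ (g0 - bq * i)) := by
    intro V
    have hX : ∀ i (x : T d L), 0 ≤ XX lam (ze c0 κ ρ i) x V :=
      fun i x => XX_nonneg lam (ze_pos hκ hρ i) x V
    have hterm : ∀ i (x : T d L), 0 ≤ (1 / (Λ * (A * κ)) ^ (3 * 2 ^ (g0 - bq * i))) *
        XX lam (ze c0 κ ρ i) x V ^ (3 * 2 ^ (g0 - bq * i)) := fun i x => by
      have := hX i x
      positivity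
    have hs : 0 ≤ ∑ i ∈ Finset.range (j + 1), ∑ x : T d L,
        (1 / (Λ * (A * κ)) ^ (3 * 2 ^ (g0 - bq * i))) * XX lam (ze c0 κ ρ i) x V ^ (3 * 2 ^ (g0 - bq * i)) :=
      Finset.sum_nonneg fun i _ => Finset.sum_nonneg fun x _ => hterm i x
    by_cases hV : V ∈ O
    · rw [Set.indicator_of_notMem (by simpa using hV)]
      have : 0 ≤ Gᶜ.indicator (fun _ => (1 : ℝ)) V := Set.indicator_nonneg (fun _ _ => zero_le_one) V
      linarith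
    · rw [Set.indicator_of_mem (show V ∈ Oᶜ from hV)]
      by_cases hVG : V ∈ G
      · have h1 : ∃ i ∈ Finset.range (j + 1), ∃ x, Λ * (A * κ) < XX lam (ze c0 κ ρ i) x V := by
          by_contra hcon
          push Not at hcon
          exact hV ⟨hVG, hcon⟩
        obtain ⟨i, hi, x, hx⟩ := h1
        have h2 : 1 ≤ (1 / (Λ * (A * κ)) ^ (3 * 2 ^ (g0 - bq * i))) *
            XX lam (ze c0 κ ρ i) x V ^ (3 * 2 ^ (g0 - bq * i)) := by
          rw [one_div, inv_mul_eq_div, one_le_div (by positivity)]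
          exact pow_le_pow_left₀ hB.le hx.le _
        have h3 : (1 / (Λ * (A * κ)) ^ (3 * 2 ^ (g0 - bq * i))) *
            XX lam (ze c0 κ ρ i) x V ^ (3 * 2 ^ (g0 - bq * i)) ≤ ∑ x : T d L,
            (1 / (Λ * (A * κ)) ^ (3 * 2 ^ (g0 - bq * i))) *
              XX lam (ze c0 κ ρ i) x V ^ (3 * 2 ^ (g0 - bq * i)) :=
          Finset.single_le_sum (f := fun x => (1 / (Λ * (A * κ)) ^ (3 * 2 ^ (g0 - bq * i))) *
            XX lam (ze c0 κ ρ i) x V ^ (3 * 2 ^ (g0 - bq * i))) (fun x _ => hterm i x)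
            (Finset.mem_univ x)
        have h4 : ∑ x : T d L, (1 / (Λ * (A * κ)) ^ (3 * 2 ^ (g0 - bq * i))) *
              XX lam (ze c0 κ ρ i) x V ^ (3 * 2 ^ (g0 - bq * i)) ≤
            ∑ i ∈ Finset.range (j + 1), ∑ x : T d L,
            (1 / (Λ * (A * κ)) ^ (3 * 2 ^ (g0 - bq * i))) *
              XX lam (ze c0 κ ρ i) x V ^ (3 * 2 ^ (g0 - bq * i)) :=
          Finset.single_le_sum (f := fun i => ∑ x : T d L,
            (1 / (Λ * (A * κ)) ^ (3 * 2 ^ (g0 - bq * i))) *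
              XX lam (ze c0 κ ρ i) x V ^ (3 * 2 ^ (g0 - bq * i)))
            (fun i _ => Finset.sum_nonneg fun x _ => hterm i x) hi
        have : 0 ≤ Gᶜ.indicator (fun _ => (1 : ℝ)) V :=
          Set.indicator_nonneg (fun _ _ => zero_le_one) V
        linarith
      · rw [Set.indicator_of_mem (show V ∈ Gᶜ from hVG)]
        linarith
  have i1 : Integrable (Oᶜ.indicator fun _ : T d L → ℝ => (1 : ℝ)) P :=
    (integrable_const _).indicator hOm.compl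
  have i2 : Integrable (Gᶜ.indicator fun _ : T d L → ℝ => (1 : ℝ)) P :=
    (integrable_const _).indicator hG.compl
  have i3 : ∀ i (x : T d L), Integrable (fun V => (1 / (Λ * (A * κ)) ^ (3 * 2 ^ (g0 - bq * i))) *
      XX lam (ze c0 κ ρ i) x V ^ (3 * 2 ^ (g0 - bq * i))) P := fun i x =>
    (XX_pow_int μ lam (ze_pos hκ hρ i) x _).const_mul _
  have i4 : ∀ i, Integrable (fun V => ∑ x : T d L, (1 / (Λ * (A * κ)) ^ (3 * 2 ^ (g0 - bq * i))) *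
      XX lam (ze c0 κ ρ i) x V ^ (3 * 2 ^ (g0 - bq * i))) P := fun i =>
    integrable_finsetSum _ fun x _ => i3 i x
  have i5 : Integrable (fun V => ∑ i ∈ Finset.range (j + 1), ∑ x : T d L,
      (1 / (Λ * (A * κ)) ^ (3 * 2 ^ (g0 - bq * i))) *
      XX lam (ze c0 κ ρ i) x V ^ (3 * 2 ^ (g0 - bq * i))) P := integrable_finsetSum _ fun i _ => i4 i
  have h1 := integral_mono i1 (i2.add i5) hpt
  have e1 : ∀ S : Set (T d L → ℝ), MeasurableSet S →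
      ∫ V, S.indicator (fun _ => (1 : ℝ)) V ∂P = P.real S := by
    intro S hS
    rw [integral_indicator hS, setIntegral_const, smul_eq_mul, mul_one]
  have e2 := integral_add i2 i5
  rw [e1 _ hOm.compl] at h1
  refine h1.trans (le_trans (le_of_eq e2) ?_)
  rw [e1 _ hG.compl, integral_finsetSum _ fun i _ => i4 i]
  have h2 : ∀ i ∈ Finset.range (j + 1), ∫ V, (∑ x : T d L,
      (1 / (Λ * (A * κ)) ^ (3 * 2 ^ (g0 - bq * i))) *
      XX lam (ze c0 κ ρ i) x V ^ (3 * 2 ^ (g0 - bq * i))) ∂P ≤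
      (L : ℝ) ^ d * (K0 g0 / Λ ^ (3 * 2 ^ (g0 - bq * j))) := by
    intro i hi
    have hij : i ≤ j := by have := Finset.mem_range.1 hi; omega
    rw [integral_finsetSum _ fun x _ => i3 i x]
    have h3 : ∀ x : T d L, ∫ V, (1 / (Λ * (A * κ)) ^ (3 * 2 ^ (g0 - bq * i))) *
        XX lam (ze c0 κ ρ i) x V ^ (3 * 2 ^ (g0 - bq * i)) ∂P ≤ K0 g0 / Λ ^ (3 * 2 ^ (g0 - bq * j)) := by
      intro x
      rw [integral_const_mul, XX_trans_int lam (ze_pos hκ hρ i).ne']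
      calc 1 / (Λ * (A * κ)) ^ (3 * 2 ^ (g0 - bq * i)) *
            ∫ V, XX lam (ze c0 κ ρ i) 0 V ^ (3 * 2 ^ (g0 - bq * i)) ∂P ≤
          1 / (Λ * (A * κ)) ^ (3 * 2 ^ (g0 - bq * i)) *
            (K0 g0 * (A * κ) ^ (3 * 2 ^ (g0 - bq * i))) := by
            gcongr
            exact hI i hij
        _ = K0 g0 / Λ ^ (3 * 2 ^ (g0 - bq * i)) := by
            rw [mul_pow]
            field_simp
        _ ≤ _ := by
            have hbi : bq * i ≤ bq * j := Nat.mul_le_mul_left _ hij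
            have : 2 ^ (g0 - bq * j) ≤ 2 ^ (g0 - bq * i) :=
              Nat.pow_le_pow_right (by norm_num) (by omega)
            gcongr
    refine (Finset.sum_le_sum fun x _ => h3 x).trans (le_of_eq ?_)
    rw [Finset.sum_const, Finset.card_univ, nsmul_eq_mul, card_TdL]
  have h4 := Finset.sum_le_sum h2
  rw [Finset.sum_const, Finset.card_range, nsmul_eq_mul] at h4
  have h5 : ((j + 1 : ℕ) : ℝ) * ((L : ℝ) ^ d * (K0 g0 / Λ ^ (3 * 2 ^ (g0 - bq * j)))) ≤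
      (J + 1) * (L : ℝ) ^ d * K0 g0 / Λ ^ (3 * 2 ^ (g0 - bq * j)) := by
    have h6 : ((j + 1 : ℕ) : ℝ) ≤ (J : ℝ) + 1 := by exact_mod_cast Nat.succ_le_succ hj
    have hL := L_pos (L := L)
    calc ((j + 1 : ℕ) : ℝ) * ((L : ℝ) ^ d * (K0 g0 / Λ ^ (3 * 2 ^ (g0 - bq * j)))) ≤
        ((J : ℝ) + 1) * ((L : ℝ) ^ d * (K0 g0 / Λ ^ (3 * 2 ^ (g0 - bq * j)))) := by gcongr
      _ = _ := by ring
  linarith

/-- interpolation between moments -/
theorem interp (P : Measure (T d L → ℝ)) [IsProbabilityMeasure P] (X : (T d L → ℝ) → ℝ)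
    (hX0 : ∀ V, 0 ≤ X V) (hXm : Measurable X) (M : ℝ) (hM : ∀ V, X V ≤ M) (c K : ℝ) (hc : 0 < c)
    (n n' : ℕ) (hn : n ≤ n') (h : ∫ V, X V ^ n' ∂P ≤ K * c ^ n') :
    ∫ V, X V ^ n ∂P ≤ (K + 1) * c ^ n := by
  have hi : ∀ n : ℕ, Integrable (fun V => X V ^ n) P := fun n => by
    refine int_of P _ (hXm.pow_const n) (M ^ n) fun V => ?_
    rw [abs_pow, abs_of_nonneg (hX0 V)]
    exact pow_le_pow_left₀ (hX0 V) (hM V) n
  obtain ⟨m, hm⟩ : ∃ m, n' = n + m := ⟨n' - n, by omega⟩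
  subst hm
  have hpt : ∀ V, X V ^ n ≤ c ^ n + 1 / c ^ m * X V ^ (n + m) := by
    intro V
    have hx := hX0 V
    have hcm : 0 < c ^ m := by positivity
    rcases le_total (X V) c with h1 | h1
    · have h2 : X V ^ n ≤ c ^ n := pow_le_pow_left₀ hx h1 _
      have h3 : 0 ≤ 1 / c ^ m * X V ^ (n + m) := by positivity
      linarith
    · have h2 : c ^ m ≤ X V ^ m := pow_le_pow_left₀ hc.le h1 _
      have h3 : X V ^ n ≤ 1 / c ^ m * X V ^ (n + m) := by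
        rw [one_div, inv_mul_eq_div, le_div_iff₀ hcm, pow_add]
        have : 0 ≤ X V ^ n := by positivity
        gcongr
      have h4 : 0 ≤ c ^ n := by positivity
      linarith
  have h1 := integral_mono (hi n) ((integrable_const (c ^ n)).add
    ((hi (n + m)).const_mul (1 / c ^ m))) hpt
  have e1 := integral_add (integrable_const (μ := P) (c ^ n))
    ((hi (n + m)).const_mul (1 / c ^ m))
  refine h1.trans (le_trans (le_of_eq e1) ?_)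
  rw [integral_const_mul]
  have e2 : ∫ _V, c ^ n ∂P = c ^ n := by simp
  rw [e2]
  have hcm : 0 < c ^ m := by positivity
  have h2 : 1 / c ^ m * ∫ V, X V ^ (n + m) ∂P ≤ 1 / c ^ m * (K * c ^ (n + m)) := by gcongr
  have e3 : 1 / c ^ m * (K * c ^ (n + m)) = K * c ^ n := by
    rw [pow_add]
    field_simp
  linarith

/-- from the centred moment to the moment -/
theorem center (P : Measure (T d L → ℝ)) [IsProbabilityMeasure P] (X : (T d L → ℝ) → ℝ)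
    (hX0 : ∀ V, 0 ≤ X V) (hXm : Measurable X) (M : ℝ) (hM : ∀ V, X V ≤ M) (c : ℝ) (hc : 0 < c)
    (m : ℕ) (hm : 1 ≤ m) (h1 : ∫ V, X V ∂P ≤ c)
    (h2 : ∫ V, (X V - ∫ U, X U ∂P) ^ (2 * m) ∂P ≤ c ^ (2 * m)) :
    ∫ V, X V ^ (2 * m) ∂P ≤ 2 ^ (2 * m + 1) * c ^ (2 * m) := by
  set a := ∫ U, X U ∂P with ha
  have ha0 : 0 ≤ a := integral_nonneg hX0
  have hM0 : 0 ≤ M := (hX0 fun _ => 0).trans (hM _)
  have hi : Integrable (fun V => X V ^ (2 * m)) P := by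
    refine int_of P _ (hXm.pow_const _) (M ^ (2 * m)) fun V => ?_
    rw [abs_pow, abs_of_nonneg (hX0 V)]
    exact pow_le_pow_left₀ (hX0 V) (hM V) _
  have hj : Integrable (fun V => (X V - a) ^ (2 * m)) P := by
    refine int_of P _ ((hXm.sub_const a).pow_const _) ((M + a) ^ (2 * m)) fun V => ?_
    rw [abs_pow]
    refine pow_le_pow_left₀ (abs_nonneg _) ?_ _
    rw [abs_le]
    constructor
    · have := hX0 V
      linarith
    · have := hM V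
      linarith
  have hpt : ∀ V, X V ^ (2 * m) ≤ 2 ^ (2 * m) * (X V - a) ^ (2 * m) + 2 ^ (2 * m) * a ^ (2 * m) := by
    intro V
    have hx := hX0 V
    have h3 : X V ≤ |X V - a| + a := by
      have := le_abs_self (X V - a)
      linarith
    have h4 := pow_le_pow_left₀ hx h3 (2 * m)
    have h5 := add_pow_le (abs_nonneg (X V - a)) ha0 (2 * m)
    have h6 : |X V - a| ^ (2 * m) = (X V - a) ^ (2 * m) := by
      rw [pow_mul, sq_abs, ← pow_mul]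
    rw [h6] at h5
    have h7 : 0 ≤ (X V - a) ^ (2 * m) := by rw [pow_mul]; positivity
    have h8 : (2 : ℝ) ^ (2 * m - 1) ≤ 2 ^ (2 * m) := by
      gcongr
      · norm_num
      · omega
    calc X V ^ (2 * m) ≤ 2 ^ (2 * m - 1) * ((X V - a) ^ (2 * m) + a ^ (2 * m)) := h4.trans h5
      _ ≤ 2 ^ (2 * m) * ((X V - a) ^ (2 * m) + a ^ (2 * m)) := by gcongr
      _ = _ := by ring
  have h3 := integral_mono hi ((hj.const_mul (2 ^ (2 * m))).add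
    (integrable_const (2 ^ (2 * m) * a ^ (2 * m)))) hpt
  have e1 := integral_add (hj.const_mul (2 ^ (2 * m)))
    (integrable_const (μ := P) (2 ^ (2 * m) * a ^ (2 * m)))
  refine h3.trans (le_trans (le_of_eq e1) ?_)
  rw [integral_const_mul]
  have e2 : ∫ _V, 2 ^ (2 * m) * a ^ (2 * m) ∂P = 2 ^ (2 * m) * a ^ (2 * m) := by simp
  rw [e2]
  have h4 : a ^ (2 * m) ≤ c ^ (2 * m) := pow_le_pow_left₀ ha0 h1 _
  calc 2 ^ (2 * m) * ∫ V, (X V - a) ^ (2 * m) ∂P + 2 ^ (2 * m) * a ^ (2 * m) ≤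
      2 ^ (2 * m) * c ^ (2 * m) + 2 ^ (2 * m) * c ^ (2 * m) := by gcongr
    _ = _ := by rw [pow_succ]; ring

end

end Pool.Agent.V8H95.ND
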