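import Pool.Agent.V8H95.ND.Grid

/-!
All approximate eigenfunctions at fixed parameters.
-/

set_option autoImplicit false
set_option linter.unusedSectionVars false
set_option linter.unusedVariables false

open Complex MeasureTheory
open scoped BigOperators ComplexConjugate

namespace Pool.Agent.V8H95.ND

open Pool.Agent.H4R2.AE Pool.Agent.V8H99.AD Pool.Agent.V8H95.MF Pool.Agent.V8H95.BW
open Pool.Agent.V8H95.EF Pool.Agent.V8H95.NM Pool.Agent.V8H95.NE

theorem core {d L : ℕ} [NeZero L] (hd : 3 ≤ d) (μ : Measure ℝ) [IsProbabilityMeasure μ]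
    (hμ : μ (Set.Icc (-1) 1)ᶜ = 0) {Cg Cs A C : ℝ} {g0 bq J Q N2 p M P : ℕ}
    {lam c0 θ m x : ℝ} (G : Set (T d L → ℝ)) (hGm : MeasurableSet G)
    (hGd : ∀ V ∈ G, ∃ ψ : T d L → ℝ, Gd lam c0 θ m V ψ)
    (hGG : GGb d Cg) (hIN : INb d A) (hRC : RCb d Cs g0) (hC0 : 0 ≤ C) (hSP : SPb d C)
    (hA : 10000 ≤ A) (hlam : 0 < lam) (hxp : 0 < x) (hlx32 : lam ≤ x ^ 32)
    (s12 : 5000 * x ≤ 1) (hlamL : 1 / lam ≤ lam ^ 2 * L)
    (hSm : ∀ κ : ℝ, 0 < κ → lam ^ 2 ≤ κ * x ^ 16 → κ ≤ 1 / A →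
      Sm d L Cg Cs A g0 bq J Q N2 p lam c0 θ m κ x θ 1
        1 ((Measure.pi fun _ : T d L => μ).real Gᶜ))
    (hM1 : 1 ≤ M) (s30 : (4 * A + 1 + 32 * (M : ℝ) ^ 2 * A) * x ≤ 1)
    (s31 : 32 * (M : ℝ) ^ 3 * (2 ^ M) ^ 2 * (1 + (J + 1) * K0 g0) * x ≤ 1)
    (hxb : x ^ M ≤ lam ^ (P + 5 + N2)) (hQ : 3 * N2 + M + (P + 5) + 1 ≤ 6 * Q)
    (hp : 2 * N2 + M + (P + 5) + 1 ≤ p)
    (s40 : (2 * C * 2 ^ d + 2) * 3 ^ d * x ≤ 1)
    (s41 : (24 * (d : ℝ) ^ 2 * (8 * √(d : ℝ) + 1) + 48) * x ≤ 1)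
    (R : ℕ) (hR : (R : ℝ) ≤ x ^ 32 / lam ^ 2) :
    ∃ S : Set (T d L → ℝ), MeasurableSet S ∧
      (Measure.pi fun _ : T d L => μ).real Sᶜ ≤ 6 * lam ^ (P + 1) ∧
      ∀ V ∈ G ∩ S, ∀ (ψ : XT d L) (E : ℝ), ‖ψ‖ = 1 →
        ‖HC lam V ψ - ((E : ℝ) : ℂ) • ψ‖ ≤ lam ^ (d + 5) → E - c0 ≤ (1 / A) ^ 2 →
        ∀ y0 : T d L, ‖rs (fun y => nn (y - y0) ≤ R) ψ‖ ^ 2 ≤ 50 * x := by
  have hAp : 0 < A := by linarith
  have hx1 : x ≤ 1 := by linarith
  have hpw : ∀ n m : ℕ, m ≤ n → x ^ n ≤ x ^ m := fun n m hnm =>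
    pow_le_pow_of_le_one hxp.le hx1 hnm
  have hlx2 : lam ≤ x ^ 2 := hlx32.trans (hpw 32 2 (by norm_num))
  have hlx : lam ≤ x := by
    have := hlx32.trans (hpw 32 1 (by norm_num))
    rwa [pow_one] at this
  have hl1 : lam ≤ 1 := hlx.trans hx1
  have hr1 : 1 ≤ x ^ 32 / lam ^ 2 := by
    rw [le_div_iff₀ (by positivity)]
    calc 1 * lam ^ 2 = lam * lam := by ring
      _ ≤ x ^ 32 * 1 := by gcongr
      _ = x ^ 32 := mul_one _
  have hRr : 2 * (R : ℝ) + 1 ≤ 3 * (x ^ 32 / lam ^ 2) := by linarith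
  obtain ⟨κm, hκm⟩ : ∃ κm : ℝ, κm = lam ^ 2 / x ^ 16 := ⟨_, rfl⟩
  have hκm0 : 0 < κm := by rw [hκm]; positivity
  obtain ⟨n, hn⟩ : ∃ n : ℕ, n = ⌈2 / lam ^ 4⌉₊ := ⟨_, rfl⟩
  have hn1 : 2 / lam ^ 4 ≤ (n : ℝ) := by rw [hn]; exact Nat.le_ceil _
  have hn2 : (n : ℝ) ≤ 3 / lam ^ 4 := by
    have h1 : (n : ℝ) < 2 / lam ^ 4 + 1 := by
      rw [hn]
      exact Nat.ceil_lt_add_one (by positivity)
    have h2 : (1 : ℝ) ≤ 1 / lam ^ 4 := by
      rw [le_div_iff₀ (by positivity), one_mul]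
      exact pow_le_one₀ hlam.le hl1
    have h3 : 3 / lam ^ 4 = 2 / lam ^ 4 + 1 / lam ^ 4 := by ring
    linarith
  have hA1 : 1 / A ≤ 1 := by
    rw [div_le_one hAp]
    linarith
  obtain ⟨S, hSm', hSP', hS⟩ := grid μ (κm ^ 2) ((1 / A) ^ 2) (lam ^ 4 / 2) (by positivity) n (by
      refine lt_of_lt_of_le ?_ hn1
      rw [div_div_eq_mul_div]
      apply div_lt_div_of_pos_right _ (by positivity)
      have h1 : (1 / A) ^ 2 ≤ 1 := pow_le_one₀ (by positivity) hA1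
      have h2 : 0 < κm ^ 2 := by positivity
      linarith) (2 * lam ^ (P + 5)) (by positivity)
    (fun V t => ∀ ψ : XT d L, ‖HC lam V ψ - ((c0 + t : ℝ) : ℂ) • ψ‖ ≤ lam ^ (d + 5) → ‖ψ‖ = 1 →
      ∀ y0 : T d L, ‖rs (fun y => nn (y - y0) ≤ R) ψ‖ ^ 2 ≤ 50 * x) (by
      intro e he1 he2
      have he0 : 0 < e := lt_of_lt_of_le (by positivity) he1
      have hκe : √e ^ 2 = e := Real.sq_sqrt he0.le
      have hκe0 : 0 < √e := Real.sqrt_pos.2 he0
      have hsm := hSm (√e) hκe0 (by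
        have h1 : κm ≤ √e := Real.le_sqrt_of_sq_le he1
        rw [hκm, div_le_iff₀ (by positivity)] at h1
        exact h1) (by
        rw [Real.sqrt_le_left (by positivity)]
        exact he2)
      obtain ⟨S, h1, h2, h3⟩ := one_e_q μ hμ G hsm hGm hGd hGG hIN hRC M hM1 s30 s12
      refine ⟨S, h1, h2.trans ?_, ?_⟩
      · exact prob_bd hsm M (P + 5) hM1 hxb hQ hp s31
      · intro V hV t ht ψ hψ hψ1 y0
        have hr : ‖HC lam V ψ - ((c0 + t : ℝ) : ℂ) • ψ‖ ≤ lam * et lam (√e) x := by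
          refine hψ.trans ?_
          have := hsm.et_ge
          calc lam ^ (d + 5) ≤ lam ^ 5 := pow_le_pow_of_le_one hlam.le hl1 (by omega)
            _ = lam * lam ^ 4 := by ring
            _ ≤ _ := by gcongr
        have h4 := h3 V hV ψ (c0 + t) lam hlam.le hr hψ1 (by
          rw [hκe]
          have e1 : c0 + t - (c0 + e) = t - e := by ring
          rw [e1]
          refine ht.trans ?_
          have := hsm.et_ge
          linarith) R y0
        refine h4.trans ?_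
        have e2 : 8 * √(d : ℝ) * et lam (√e) x / √e = 8 * √(d : ℝ) * (lam ^ 2 / x ^ 8) := by
          unfold et
          field_simp
        rw [e2]
        have h6 : 1 / (L : ℝ) ≤ lam ^ 2 / x ^ 8 := by
          have hL := L_pos (L := L)
          rw [div_le_div_iff₀ (by positivity) (by positivity)]
          have h7 : x ^ 8 ≤ 1 := pow_le_one₀ hxp.le hx1
          have h8 : 1 ≤ 1 / lam := by
            rw [le_div_iff₀ hlam]
            linarith
          calc 1 * x ^ 8 ≤ 1 := by linarith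
            _ ≤ 1 / lam := h8
            _ ≤ lam ^ 2 * L := hlamL
        calc 8 * (d : ℝ) ^ 2 * ((2 * R + 1) * (8 * √(d : ℝ) * (lam ^ 2 / x ^ 8) + 1 / L)) +
              48 * (x + lam ^ 2) ≤
            8 * (d : ℝ) ^ 2 * ((3 * (x ^ 32 / lam ^ 2)) * (8 * √(d : ℝ) * (lam ^ 2 / x ^ 8) +
              lam ^ 2 / x ^ 8)) + 48 * (x + (x ^ 2) ^ 2) := by gcongr
          _ = 24 * (d : ℝ) ^ 2 * (8 * √(d : ℝ) + 1) * x ^ 24 + 48 * (x + x ^ 4) := by
              field_simp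
              ring
          _ ≤ 24 * (d : ℝ) ^ 2 * (8 * √(d : ℝ) + 1) * x ^ 2 + 48 * (x + x ^ 2) := by
              have := hpw 24 2 (by norm_num)
              have := hpw 4 2 (by norm_num)
              gcongr
          _ = ((24 * (d : ℝ) ^ 2 * (8 * √(d : ℝ) + 1) + 48) * x) * x + 48 * x := by ring
          _ ≤ 1 * x + 48 * x := by gcongr
          _ ≤ 50 * x := by linarith)
  refine ⟨S, hSm', ?_, ?_⟩
  · refine hSP'.trans ?_
    calc (n : ℝ) * (2 * lam ^ (P + 5)) ≤ 3 / lam ^ 4 * (2 * lam ^ (P + 5)) := by gcongr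
      _ = _ := by
          rw [show P + 5 = (P + 1) + 4 by ring, pow_add lam (P + 1) 4]
          field_simp
          ring
  · intro V hV ψ E hψ1 hψ hEk y0
    obtain ⟨φ, hφ⟩ := hGd V hV.1
    rcases le_total (E - c0) (κm ^ 2) with hlow | hhigh
    · have hκ2 : lam ^ 2 ≤ κm := by
        rw [hκm, le_div_iff₀ (by positivity)]
        have h1 : x ^ 16 ≤ 1 := pow_le_one₀ hxp.le hx1
        calc lam ^ 2 * x ^ 16 ≤ lam ^ 2 * 1 := by gcongr
          _ = lam ^ 2 := mul_one _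
      have h1 : ∀ y, ‖ψ y‖ ^ 2 ≤ (2 * C * 2 ^ d + 2) * κm ^ d := by
        intro y
        have h1 := low_pt_q hC0 hSP hφ ψ hψ1 E κm hκm0 (by linarith) y
        refine h1.trans ?_
        have h2 : ‖HC lam V ψ - ((E : ℝ) : ℂ) • ψ‖ ^ 2 ≤ (lam ^ (d + 5)) ^ 2 := by gcongr
        have h3 : (lam ^ (d + 5)) ^ 2 ≤ κm ^ d * κm ^ 4 := by
          calc (lam ^ (d + 5)) ^ 2 = (lam ^ 2) ^ (d + 5) := by
                rw [← pow_mul, ← pow_mul]
                congr 1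
                ring
            _ ≤ (lam ^ 2) ^ (d + 4) :=
                pow_le_pow_of_le_one (by positivity) (pow_le_one₀ hlam.le hl1) (by omega)
            _ ≤ κm ^ (d + 4) := by gcongr
            _ = _ := pow_add _ _ _
        have h4 : 2 * ‖HC lam V ψ - ((E : ℝ) : ℂ) • ψ‖ ^ 2 / κm ^ 4 ≤ 2 * κm ^ d := by
          rw [div_le_iff₀ (by positivity)]
          have := h2.trans h3
          linarith
        have e : 2 * C * (2 * κm) ^ d = 2 * C * 2 ^ d * κm ^ d := by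
          rw [mul_pow]
          ring
        rw [e]
        linarith
      have h2 := cube_mass ψ _ h1 R y0
      refine h2.trans ?_
      calc (2 * (R : ℝ) + 1) ^ d * ((2 * C * 2 ^ d + 2) * κm ^ d) ≤
          (3 * (x ^ 32 / lam ^ 2)) ^ d * ((2 * C * 2 ^ d + 2) * κm ^ d) := by gcongr
        _ = ((2 * C * 2 ^ d + 2) * 3 ^ d) * ((x ^ 32 / lam ^ 2) * κm) ^ d := by
            rw [mul_pow, mul_pow]
            ring
        _ = ((2 * C * 2 ^ d + 2) * 3 ^ d) * (x ^ 16) ^ d := by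
            have e : x ^ 32 / lam ^ 2 * κm = x ^ 16 := by
              rw [hκm]
              field_simp
            rw [e]
        _ ≤ ((2 * C * 2 ^ d + 2) * 3 ^ d) * (x * x) := by
            have h3 : (x ^ 16) ^ d ≤ x * x := by
              rw [← pow_mul, ← pow_two]
              exact pow_le_pow_of_le_one hxp.le hx1 (by omega)
            gcongr
        _ = ((2 * C * 2 ^ d + 2) * 3 ^ d * x) * x := by ring
        _ ≤ 1 * x := by gcongr
        _ ≤ 50 * x := by linarith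
    · refine hS V hV.2 (E - c0) hhigh hEk ψ ?_ hψ1 y0
      have e5 : c0 + (E - c0) = E := by ring
      rw [e5]
      exact hψ

end Pool.Agent.V8H95.ND
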