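import Pool.Agent.V8H95.ND.Core
import Pool.Agent.V8H95.ND.Tev
import Pool.Agent.V8H95.NM.Fin3

/-!
Every approximate eigenfunction on the torus.
-/

set_option autoImplicit false
set_option linter.unusedSectionVars false
set_option linter.unusedVariables false

open Complex MeasureTheory
open scoped BigOperators ComplexConjugate

namespace Pool.Agent.V8H95.ND

open Pool.Agent.H4R2.AE Pool.Agent.V8H99.AD Pool.Agent.V8H95.MF Pool.Agent.V8H95.BW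
open Pool.Agent.V8H95.EF Pool.Agent.V8H95.NM Pool.Agent.V8H95.NE

theorem every_q (d : ℕ) (hd : 3 ≤ d) (N P : ℕ) (a : ℝ) (ha : 0 < a) (ha1 : a ≤ 1) :
    ∃ k lam0 : ℝ, 0 < k ∧ 0 < lam0 ∧
    ∀ (μ : Measure ℝ) [IsProbabilityMeasure μ], μ (Set.Icc (-1) 1)ᶜ = 0 →
    ∀ lam : ℝ, 0 < lam → lam ≤ lam0 → ∀ (L : ℕ) [NeZero L],
    1 / lam ^ 3 ≤ (L : ℝ) → (L : ℝ) ≤ 1 / lam ^ N →
    ∃ G : Set (T d L → ℝ), MeasurableSet G ∧
      (Measure.pi fun _ : T d L => μ).real Gᶜ ≤ lam ^ P ∧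
      ∀ V ∈ G, ∀ (ψ : XT d L) (E : ℝ), ‖ψ‖ = 1 →
        ‖HC lam V ψ - ((E : ℝ) : ℂ) • ψ‖ ≤ lam ^ (d + 5) → E ≤ k →
        ∀ x0 : T d L, ‖rs (fun x => (nn (x - x0) : ℝ) ≤ lam ^ (a - 2)) ψ‖ ^ 2 ≤
          50 * lam ^ (a / 32) := by
  have hdr : (3 : ℝ) ≤ d := by exact_mod_cast hd
  have hd0 : (0 : ℝ) < d := by linarith
  obtain ⟨N2, hN2⟩ : ∃ N2 : ℕ, N2 = N * d := ⟨_, rfl⟩
  obtain ⟨Jb', bq', hJb', hbq', hexp'⟩ := expo (a / 2) (by positivity) (by linarith) (P + 5 + N2)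
  obtain ⟨M, hM⟩ : ∃ M : ℕ, M = 2 ^ (bq' - 1) := ⟨_, rfl⟩
  have hM1 : 1 ≤ M := by rw [hM]; exact Nat.one_le_two_pow
  obtain ⟨Q, hQ⟩ : ∃ Q : ℕ, Q = 3 * N2 + M + P + 26 := ⟨_, rfl⟩
  obtain ⟨Jb, bq, hJb, hbq, hexp⟩ := expo (a / 2) (by positivity) (by linarith) Q
  obtain ⟨g0, hg0⟩ : ∃ g0 : ℕ, g0 = bq * Jb := ⟨_, rfl⟩
  obtain ⟨p, hp⟩ : ∃ p : ℕ, p = (N2 + 40) * 2 ^ g0 + (2 * N2 + M + P + 6) := ⟨_, rfl⟩
  obtain ⟨Cg, Cs, A, hCg, hCs, hA, hMX, hGG, hIN, hRC⟩ := consts_exist d hd g0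
  obtain ⟨C, hC1, hSP⟩ := spec d hd
  have hC0 : 0 ≤ C := by linarith
  obtain ⟨θ, hθ⟩ : ∃ θ : ℝ, θ = 1 / (1000 * (d : ℝ)) := ⟨_, rfl⟩
  have hθ0 : 0 < θ := by rw [hθ]; positivity
  have hθd : θ * (1000 * (d : ℝ)) ≤ 1 := by
    rw [hθ, one_div_mul_cancel (by positivity)]
  have hθ3 : θ ≤ 1 / 3000 := by
    rw [hθ]
    apply one_div_le_one_div_of_le (by norm_num)
    linarith
  have hθ4 : θ / 4 ≤ 1 / 8 := by linarith
  obtain ⟨lam1, hlam1, HE⟩ := tev d hd N p (θ / 4) (a / 32) (by positivity) hθ4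
    (by positivity) (by linarith)
  have hK0 := K0_ge g0
  have hAp : 0 < A := by linarith
  obtain ⟨x0, hx0, hsm⟩ := smallx [4 * Cg, 8 * (Jb + 2), 100 * ((d : ℝ) + 1) / θ,
    4 * K0 g0 + 4 + 4 * (Jb + 1) * K0 g0, (4 * A * 1 + DD d) / θ ^ 2,
    4 * Cs * K0 g0 * A * 1, 4 * Cs * (Jb + 1) * K0 g0, 5000,
    4 * A + 1 + 32 * (M : ℝ) ^ 2 * A,
    32 * (M : ℝ) ^ 3 * (2 ^ M) ^ 2 * (1 + (Jb + 1) * K0 g0), 6 * A ^ 2,
    (2 * C * 2 ^ d + 2) * 3 ^ d, 24 * (d : ℝ) ^ 2 * (8 * √(d : ℝ) + 1) + 48]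
  obtain ⟨k, hk⟩ : ∃ k : ℝ, k = 1 / (2 * A ^ 2) := ⟨_, rfl⟩
  have hk0 : 0 < k := by rw [hk]; positivity
  have ha32 : 0 < a / 32 := by positivity
  refine ⟨k, min (min 1 lam1) (x0 ^ (1 / (a / 32))), hk0, by positivity, ?_⟩
  intro μ _ hμ lam hlam hlam0 L _ hL1 hL2
  have hl1 : lam ≤ 1 := hlam0.trans ((min_le_left _ _).trans (min_le_left _ _))
  have hll1 : lam ≤ lam1 := hlam0.trans ((min_le_left _ _).trans (min_le_right _ _))
  obtain ⟨x, hx⟩ : ∃ x : ℝ, x = lam ^ (a / 32) := ⟨_, rfl⟩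
  have hxp : 0 < x := by rw [hx]; positivity
  have hxx0 : x ≤ x0 := by
    rw [hx]
    have h1 : lam ^ (a / 32) ≤ (x0 ^ (1 / (a / 32))) ^ (a / 32) :=
      Real.rpow_le_rpow hlam.le (hlam0.trans (min_le_right _ _)) ha32.le
    rwa [← Real.rpow_mul hx0.le, one_div_mul_cancel ha32.ne', Real.rpow_one] at h1
  have hS := hsm x hxp hxx0
  have s03 : 4 * Cg * x ≤ 1 := hS _ (by simp)
  have s04 : 8 * (Jb + 2) * x ≤ 1 := hS _ (by simp)
  have s05 : 100 * ((d : ℝ) + 1) / θ * x ≤ 1 := hS _ (by simp)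
  have s06 : (4 * K0 g0 + 4 + 4 * (Jb + 1) * K0 g0) * x ≤ 1 := hS _ (by simp)
  have s07 : (4 * A * 1 + DD d) / θ ^ 2 * x ≤ 1 := hS _ (by simp)
  have s08 : 4 * Cs * K0 g0 * A * 1 * x ≤ 1 := hS _ (by simp)
  have s09 : 4 * Cs * (Jb + 1) * K0 g0 * x ≤ 1 := hS _ (by simp)
  have s12 : 5000 * x ≤ 1 := hS _ (by simp)
  have s30 : (4 * A + 1 + 32 * (M : ℝ) ^ 2 * A) * x ≤ 1 := hS _ (by simp)
  have s31 : 32 * (M : ℝ) ^ 3 * (2 ^ M) ^ 2 * (1 + (Jb + 1) * K0 g0) * x ≤ 1 := hS _ (by simp)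
  have s33 : 6 * A ^ 2 * x ≤ 1 := hS _ (by simp)
  have s40 : (2 * C * 2 ^ d + 2) * 3 ^ d * x ≤ 1 := hS _ (by simp)
  have s41 : (24 * (d : ℝ) ^ 2 * (8 * √(d : ℝ) + 1) + 48) * x ≤ 1 := hS _ (by simp)
  clear hS hsm
  have hx1 : x ≤ 1 := by rw [hx]; exact Real.rpow_le_one hlam.le hl1 ha32.le
  have hx32 : x ^ 32 = lam ^ a := by
    rw [hx, ← Real.rpow_natCast, ← Real.rpow_mul hlam.le]
    congr 1
    push_cast
    ring
  have hpw : ∀ n m : ℕ, m ≤ n → x ^ n ≤ x ^ m := fun n m hnm =>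
    pow_le_pow_of_le_one hxp.le hx1 hnm
  have hlx32 : lam ≤ x ^ 32 := by
    rw [hx32]
    calc lam = lam ^ (1 : ℝ) := (Real.rpow_one lam).symm
      _ ≤ lam ^ a := Real.rpow_le_rpow_of_exponent_ge hlam hl1 ha1
  have hlx16 : lam ≤ x ^ 16 := hlx32.trans (hpw 32 16 (by norm_num))
  obtain ⟨hxJ, hxb⟩ := hexp lam hlam hl1
  obtain ⟨hxJ', hxb'⟩ := hexp' lam hlam hl1
  have e32 : a / 2 / 16 = a / 32 := by ring
  rw [e32, ← hx] at hxJ hxb
  rw [e32, ← hx, ← hM] at hxb'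
  have hlx : lam ≤ x := by
    have := hlx16.trans (hpw 16 1 (by norm_num))
    rwa [pow_one] at this
  have hl5 : lam ≤ 1 / 5000 := by linarith
  have hrp2 : lam ^ (a - 2) = x ^ 32 / lam ^ 2 := by
    rw [hx32, Real.rpow_sub hlam, Real.rpow_ofNat]
  have hmono : ∀ n m : ℕ, n ≤ m → 1 / lam ^ n ≤ 1 / lam ^ m := fun n m hnm => by
    apply one_div_le_one_div_of_le (by positivity)
    exact pow_le_pow_of_le_one hlam.le hl1 hnm
  have hL0 : (1 : ℝ) ≤ L := by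
    refine le_trans ?_ hL1
    have := hmono 0 3 (by norm_num)
    rwa [pow_zero, div_one] at this
  have hLhi : (L : ℝ) ^ d * lam ^ N2 ≤ 1 := by
    have h1 : (L : ℝ) * lam ^ N ≤ 1 := by
      rw [le_div_iff₀ (by positivity)] at hL2
      exact hL2
    calc (L : ℝ) ^ d * lam ^ N2 = ((L : ℝ) * lam ^ N) ^ d := by
          rw [hN2, mul_pow, pow_mul]
      _ ≤ 1 := pow_le_one₀ (by positivity) h1
  have hlamL : 1 / lam ≤ lam ^ 2 * L := by
    calc 1 / lam = lam ^ 2 * (1 / lam ^ 3) := by field_simp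
      _ ≤ _ := by gcongr
  obtain ⟨E0, mg, hE, hm0, hmx, G0, hG0m, hG0P, hG0⟩ := HE μ lam hlam hll1 L hL1 hL2
  rw [← hx] at hmx
  obtain ⟨G, hGm, hGP, hG⟩ := Arith.pi_real_inter μ hμ G0 hG0m _ hG0P
  have hpG : (Measure.pi fun _ : T d L => μ).real Gᶜ ≤ lam ^ p := by
    have := probReal_add_probReal_compl (μ := Measure.pi fun _ : T d L => μ) hGm
    linarith
  have hml : mg ≤ lam ^ 2 := by
    refine hmx.trans ?_
    rw [div_le_iff₀ (by positivity)]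
    have h1 : lam ≤ x ^ 4 := hlx16.trans (hpw 16 4 (by norm_num))
    calc lam ^ 4 = lam ^ 2 * (lam * lam) := by ring
      _ ≤ lam ^ 2 * (1 * x ^ 4) := by gcongr
      _ = lam ^ 2 * x ^ 4 := by ring
  have hmp : 0 < mg := lt_of_lt_of_le (by positivity) hm0
  have hl21 : lam ^ 2 ≤ 1 := pow_le_one₀ hlam.le hl1
  have hm1 : mg ≤ 1 := hml.trans hl21
  have e4 : 4 * (θ / 4) = θ := by ring
  obtain ⟨c0, hc0d⟩ : ∃ c0 : ℝ, c0 = E0 - 2 * mg := ⟨_, rfl⟩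
  have hGd : ∀ V ∈ G, ∃ ψ : T d L → ℝ, Gd lam c0 θ mg V ψ := by
    intro V hV
    obtain ⟨w, hw1, hw2⟩ := hG0 V (hG V hV).1 (hG V hV).2
    have := gd_of_mass hlam.le hl1 (by positivity) hθ4 hE (hG V hV).2 hw1 hm0 hm1 hw2
    rw [hc0d]
    rwa [e4] at this
  have hc0 : |c0| ≤ 3 := by
    rw [hc0d]
    refine (abs_sub _ _).trans ?_
    rw [abs_of_pos (by positivity : (0 : ℝ) < 2 * mg)]
    linarith
  -- the small parameters at the energy `κ²`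
  have hSm : ∀ κ : ℝ, 0 < κ → lam ^ 2 ≤ κ * x ^ 16 → κ ≤ 1 / A →
      Sm d L Cg Cs A g0 bq Jb Q N2 p lam c0 θ mg κ x θ 1
        1 ((Measure.pi fun _ : T d L => μ).real Gᶜ) := by
    intro κ hκ0 hklo hκA
    have hmκ : mg ≤ x ^ 3 * κ ^ 2 := by
      refine hmx.trans ?_
      rw [div_le_iff₀ (by positivity)]
      have h2 : (lam ^ 2) ^ 2 ≤ (κ * x ^ 16) ^ 2 := by gcongr
      calc lam ^ 4 = (lam ^ 2) ^ 2 := by ring
        _ ≤ (κ * x ^ 16) ^ 2 := h2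
        _ = κ ^ 2 * x ^ 32 := by ring
        _ ≤ κ ^ 2 * x ^ 7 := by
            have := hpw 32 7 (by norm_num)
            gcongr
        _ = x ^ 3 * κ ^ 2 * x ^ 4 := by ring
    have hkA : A * (1 * κ) ≤ 1 := by
      rw [le_div_iff₀ hAp] at hκA
      linarith
    have hk2 : 1 * κ ≤ 1 := by
      refine le_trans ?_ hkA
      have h1 : 0 ≤ 1 * κ := by positivity
      nlinarith
    exact
    { d3 := hd
      mx := hMX
      lam0 := hlam
      x0 := hxp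
      x1 := hx1
      lx := hlx16
      xJ := hxJ
      xb := hxb
      hQ := by omega
      J1 := hJb
      hg := hg0.ge
      hb := hbq
      k0 := hκ0
      klo := hklo
      k1 := hkA
      k2 := hk2
      Lhi := hLhi
      L1 := hL0
      Llo := by
        refine le_trans ?_ hlamL
        rw [le_div_iff₀ hlam]
        linarith
      Llo2 := by
        rw [one_mul]
        refine le_trans ?_ hlamL
        rw [le_div_iff₀ hlam]
        linarith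
      hp := by omega
      pG0 := measureReal_nonneg
      pG1 := hpG
      m0 := hmp.le
      hm := hmκ
      c := hc0
      Cg1 := hCg
      Cs1 := hCs
      A1 := hA
      th0 := hθ0
      thv := le_rfl
      hv := hθ3
      hvd := hθd
      s20 := one_pos
      s21 := le_rfl
      K21 := le_rfl
      z1 := hx1
      z2 := by linarith
      z3 := s03
      z4 := s04
      z5 := by
        rw [div_mul_eq_mul_div, div_le_one hθ0] at s05
        exact s05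
      z6 := s06
      z7 := by
        rw [div_mul_eq_mul_div, div_le_one (by positivity)] at s07
        exact s07
      z8 := s08
      z9 := s09 }
  -- the radius
  obtain ⟨R, hR⟩ : ∃ R : ℕ, R = ⌊x ^ 32 / lam ^ 2⌋₊ := ⟨_, rfl⟩
  have hRr : (R : ℝ) ≤ x ^ 32 / lam ^ 2 := by
    rw [hR]
    exact Nat.floor_le (by positivity)
  obtain ⟨S, hSm', hSP', hS⟩ := core hd μ hμ G hGm hGd hGG hIN hRC hC0 hSP hA hlam hxp hlx32
    s12 hlamL hSm hM1 s30 s31 hxb' (P := P) (by omega) (by omega) s40 s41 R hRr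
  refine ⟨G ∩ S, hGm.inter hSm', ?_, ?_⟩
  · have h1 : (Measure.pi fun _ : T d L => μ).real (G ∩ S)ᶜ ≤
        (Measure.pi fun _ : T d L => μ).real Gᶜ + (Measure.pi fun _ : T d L => μ).real Sᶜ := by
      rw [Set.compl_inter]
      exact measureReal_union_le _ _
    have h4 : lam ^ p ≤ lam ^ (P + 1) := pow_le_pow_of_le_one hlam.le hl1 (by omega)
    have h5 : 7 * lam ^ (P + 1) ≤ lam ^ P := by
      calc 7 * lam ^ (P + 1) = (7 * lam) * lam ^ P := by ring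
        _ ≤ 1 * lam ^ P := by
            have : 7 * lam ≤ 1 := by linarith
            gcongr
        _ = _ := one_mul _
    linarith
  · intro V hV ψ E hψ1 hψ hEk y0
    have hmain : ‖rs (fun y => nn (y - y0) ≤ R) ψ‖ ^ 2 ≤ 50 * x := by
      refine hS V hV ψ E hψ1 hψ ?_ y0
      have h2 : (1 / A) ^ 2 = k + k := by
        rw [hk]
        field_simp
        ring
      have h3 : 3 * lam ≤ k := by
        rw [hk, le_div_iff₀ (by positivity)]
        calc 3 * lam * (2 * A ^ 2) = 6 * A ^ 2 * lam := by ring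
          _ ≤ 6 * A ^ 2 * x := by gcongr
          _ ≤ 1 := s33
      have h4 : -lam ≤ E0 := (abs_le.1 hE).1
      have h5 : lam ^ 2 ≤ lam := by nlinarith
      rw [hc0d]
      linarith
    rw [← hx]
    refine le_trans ?_ hmain
    classical
    rw [rs_norm, rs_norm]
    refine Finset.sum_le_sum fun y _ => ?_
    by_cases h1 : (nn (y - y0) : ℝ) ≤ lam ^ (a - 2)
    · rw [if_pos h1, if_pos (by
        rw [hR]
        exact Nat.le_floor (by rw [← hrp2]; exact h1))]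
    · rw [if_neg h1]
      split_ifs <;> positivity

end Pool.Agent.V8H95.ND
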