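import Pool.Agent.V8H95.ND.Boot2

/-!
The numerical hypotheses of the descent.
-/

set_option autoImplicit false
set_option linter.unusedSectionVars false
set_option linter.unusedVariables false

open Complex MeasureTheory
open scoped BigOperators ComplexConjugate

namespace Pool.Agent.V8H95.ND

open Pool.Agent.H4R2.AE Pool.Agent.V8H99.AD Pool.Agent.V8H95.MF Pool.Agent.V8H95.BW
open Pool.Agent.V8H95.EF Pool.Agent.V8H95.NM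

/-- relations between the small parameters -/
structure Sm (d L : ℕ) (Cg Cs A : ℝ) (g0 bq J Q N2 p : ℕ)
    (lam c0 θ mg κ x ϑ s2 K2 pG : ℝ) : Prop where
  d3 : 3 ≤ d
  mx : MX d ≤ A
  lam0 : 0 < lam
  x0 : 0 < x
  x1 : x ≤ 1
  lx : lam ≤ x ^ 16
  xJ : x ^ J ≤ lam ^ 2
  xb : x ^ (2 ^ (bq - 1)) ≤ lam ^ Q
  hQ : 2 * N2 + 20 ≤ Q
  J1 : 1 ≤ J
  hg : bq * J ≤ g0
  hb : 1 ≤ bq
  k0 : 0 < κ
  klo : lam ^ 2 ≤ κ * x ^ 16
  k1 : A * (K2 * κ) ≤ 1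
  k2 : K2 * κ ≤ 1
  Lhi : (L : ℝ) ^ d * lam ^ N2 ≤ 1
  L1 : 1 ≤ (L : ℝ)
  Llo : K2 ≤ lam ^ 2 * L
  Llo2 : 2 ≤ s2 * (lam ^ 2 * L)
  hp : (N2 + 40) * 2 ^ g0 ≤ p
  pG0 : 0 ≤ pG
  pG1 : pG ≤ lam ^ p
  m0 : 0 ≤ mg
  hm : mg ≤ x ^ 3 * κ ^ 2
  c : |c0| ≤ 3
  Cg1 : 1 ≤ Cg
  Cs1 : 1 ≤ Cs
  A1 : 10000 ≤ A
  th0 : 0 < θ
  thv : θ ≤ ϑ
  hv : ϑ ≤ 1 / 3000
  hvd : ϑ * (1000 * (d : ℝ)) ≤ 1
  s20 : 0 < s2
  s21 : s2 ≤ 1
  K21 : 1 ≤ K2
  z1 : x ≤ s2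
  z2 : K2 * x ≤ 1
  z3 : 4 * Cg * x ≤ 1
  z4 : 8 * (J + 2) * x ≤ 1
  z5 : 100 * ((d : ℝ) + 1) * x ≤ θ
  z6 : (4 * K0 g0 + 4 + 4 * (J + 1) * K0 g0) * x ≤ 1
  z7 : (4 * A * K2 + DD d) * x ≤ ϑ ^ 2
  z8 : 4 * Cs * K0 g0 * A * K2 * x ≤ 1
  z9 : 4 * Cs * (J + 1) * K0 g0 * x ≤ 1

section
variable {d L : ℕ} {Cg Cs A : ℝ} {g0 bq J Q N2 p : ℕ} {lam c0 θ mg κ x ϑ s2 K2 pG : ℝ}

theorem Sm.lx1 (h : Sm d L Cg Cs A g0 bq J Q N2 p lam c0 θ mg κ x ϑ s2 K2 pG) : lam ≤ x := by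
  refine h.lx.trans ?_
  calc x ^ 16 ≤ x ^ 1 := pow_le_pow_of_le_one h.x0.le h.x1 (by norm_num)
    _ = x := pow_one x

theorem Sm.lam1 (h : Sm d L Cg Cs A g0 bq J Q N2 p lam c0 θ mg κ x ϑ s2 K2 pG) : lam ≤ 1 :=
  h.lx1.trans h.x1

theorem Sm.z5' (h : Sm d L Cg Cs A g0 bq J Q N2 p lam c0 θ mg κ x ϑ s2 K2 pG) : 400 * x ≤ θ := by
  refine le_trans ?_ h.z5
  have h3 : (3 : ℝ) ≤ d := by exact_mod_cast h.d3
  have := h.x0
  gcongr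
  linarith

theorem Sm.kl2 (h : Sm d L Cg Cs A g0 bq J Q N2 p lam c0 θ mg κ x ϑ s2 K2 pG) : lam ^ 2 ≤ κ := by
  refine h.klo.trans ?_
  have h1 : x ^ 16 ≤ 1 := pow_le_one₀ h.x0.le h.x1
  have := h.k0
  nlinarith

/-- the final scale -/
noncomputable def et (lam κ x : ℝ) : ℝ := lam ^ 2 * κ / x ^ 8

theorem Sm.et0 (h : Sm d L Cg Cs A g0 bq J Q N2 p lam c0 θ mg κ x ϑ s2 K2 pG) : 0 < et lam κ x := by
  have := h.lam0
  have := h.x0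
  have := h.k0
  unfold et
  positivity

theorem Sm.et_le (h : Sm d L Cg Cs A g0 bq J Q N2 p lam c0 θ mg κ x ϑ s2 K2 pG) :
    et lam κ x ≤ x ^ 8 * κ ^ 2 := by
  have hx := h.x0
  have hk := h.k0
  unfold et
  rw [div_le_iff₀ (by positivity)]
  calc lam ^ 2 * κ ≤ (κ * x ^ 16) * κ := by
        have := h.klo
        gcongr
    _ = _ := by ring

theorem Sm.et_ge1 (h : Sm d L Cg Cs A g0 bq J Q N2 p lam c0 θ mg κ x ϑ s2 K2 pG) :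
    lam ^ 2 * κ ≤ et lam κ x := by
  have hx := h.x0
  have hk := h.k0
  have hl := h.lam0
  unfold et
  rw [le_div_iff₀ (by positivity)]
  have h1 : x ^ 8 ≤ 1 := pow_le_one₀ h.x0.le h.x1
  have h2 : 0 ≤ lam ^ 2 * κ := by positivity
  nlinarith

theorem Sm.et_ge (h : Sm d L Cg Cs A g0 bq J Q N2 p lam c0 θ mg κ x ϑ s2 K2 pG) :
    lam ^ 4 ≤ et lam κ x := by
  refine le_trans ?_ h.et_ge1
  have hl := h.lam0
  calc lam ^ 4 = lam ^ 2 * lam ^ 2 := by ring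
    _ ≤ lam ^ 2 * κ := by
        have := h.kl2
        gcongr

theorem Sm.ke (h : Sm d L Cg Cs A g0 bq J Q N2 p lam c0 θ mg κ x ϑ s2 K2 pG) (κe : ℝ)
    (h1 : s2 * κ ≤ κe) : lam ^ 3 ≤ κe ∧ x * κ ≤ κe ∧ 0 < κe := by
  have hx := h.x0
  have hk := h.k0
  have hl := h.lam0
  have hs := h.s20
  have h2 : x * κ ≤ κe := by
    refine le_trans ?_ h1
    have := h.z1
    gcongr
  refine ⟨?_, h2, lt_of_lt_of_le (by positivity) h1⟩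
  refine le_trans ?_ h2
  calc lam ^ 3 = lam * lam ^ 2 := by ring
    _ ≤ x * κ := by
        have := h.lx1
        have := h.kl2
        gcongr

/-- the ratio of the scales -/
theorem Sm.rho (h : Sm d L Cg Cs A g0 bq J Q N2 p lam c0 θ mg κ x ϑ s2 K2 pG) (κe : ℝ)
    (h1 : s2 * κ ≤ κe) (h2 : κe ≤ K2 * κ) :
    ∃ ρ : ℝ, 0 < ρ ∧ ρ ≤ 1 ∧ x ≤ ρ ∧ κe ^ 2 * ρ ^ J = et lam κ x := by
  obtain ⟨hke3, hkex, hke0⟩ := h.ke κe h1
  have hx := h.x0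
  have hk := h.k0
  have hl := h.lam0
  have hs := h.s20
  have hη := h.et0
  have hJ0 : J ≠ 0 := by have := h.J1; omega
  have hr0 : 0 < et lam κ x / κe ^ 2 := by positivity
  set ρ := (et lam κ x / κe ^ 2) ^ ((J : ℝ)⁻¹) with hρ
  have hρ0 : 0 < ρ := Real.rpow_pos_of_pos hr0 _
  have hρJ : ρ ^ J = et lam κ x / κe ^ 2 := Real.rpow_inv_natCast_pow hr0.le hJ0
  have hr1 : et lam κ x / κe ^ 2 ≤ 1 := by
    rw [div_le_one (by positivity)]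
    refine h.et_le.trans ?_
    calc x ^ 8 * κ ^ 2 ≤ x ^ 2 * κ ^ 2 := by
          have : x ^ 8 ≤ x ^ 2 := pow_le_pow_of_le_one hx.le h.x1 (by norm_num)
          gcongr
      _ = (x * κ) ^ 2 := by ring
      _ ≤ κe ^ 2 := by gcongr
  refine ⟨ρ, hρ0, Real.rpow_le_one hr0.le hr1 (by positivity), ?_, ?_⟩
  · by_contra hc
    push Not at hc
    have h3 : ρ ^ J < x ^ J := pow_lt_pow_left₀ hc hρ0.le hJ0
    have h4 : lam ^ 2 ≤ ρ ^ J := by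
      rw [hρJ, le_div_iff₀ (by positivity)]
      unfold et
      rw [le_div_iff₀ (by positivity)]
      have h5 : K2 * x ^ 8 ≤ 1 := by
        have h6 : x ^ 8 ≤ x := by
          calc x ^ 8 ≤ x ^ 1 := pow_le_pow_of_le_one hx.le h.x1 (by norm_num)
            _ = x := pow_one x
        have h7 := h.K21
        calc K2 * x ^ 8 ≤ K2 * x := by gcongr
          _ ≤ 1 := h.z2
      have h7 := h.K21
      have h8 := h.k2
      calc lam ^ 2 * κe ^ 2 * x ^ 8 ≤ lam ^ 2 * (K2 * κ) ^ 2 * x ^ 8 := by gcongr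
        _ = lam ^ 2 * κ * ((K2 * κ) * (K2 * x ^ 8)) := by ring
        _ ≤ lam ^ 2 * κ * (1 * 1) := by gcongr
        _ = _ := by ring
    have := h.xJ
    linarith
  · rw [hρJ]
    field_simp

theorem Sm.W (h : Sm d L Cg Cs A g0 bq J Q N2 p lam c0 θ mg κ x ϑ s2 K2 pG) :
    (L : ℝ) ^ d ≤ 1 / lam ^ (N2) ∧
    (L : ℝ) ^ d / (et lam κ x) ^ 2 ≤ 1 / lam ^ (N2 + 8) := by
  have hl := h.lam0
  have hη := h.et0
  have h1 : (L : ℝ) ^ d ≤ 1 / lam ^ (N2) := by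
    rw [le_div_iff₀ (by positivity)]
    exact h.Lhi
  refine ⟨h1, ?_⟩
  have h2 : (lam ^ 4) ^ 2 ≤ (et lam κ x) ^ 2 := by
    have := h.et_ge
    gcongr
  calc (L : ℝ) ^ d / (et lam κ x) ^ 2 ≤ (1 / lam ^ (N2)) / (lam ^ 4) ^ 2 := by gcongr
    _ = _ := by
        rw [pow_add, ← pow_mul]
        field_simp

theorem Sm.B (h : Sm d L Cg Cs A g0 bq J Q N2 p lam c0 θ mg κ x ϑ s2 K2 pG) (κe ρ : ℝ)
    (hke : 0 < κe) (h2 : κe ≤ K2 * κ) (hρ : x ≤ ρ) :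
    1 / x * (A * κe) / ρ ^ 2 ≤ 1 / x ^ 3 ∧
      lam ^ 2 * (1 / x * (A * κe) / ρ ^ 2) / et lam κ x ≤ A * K2 * x ∧
      lam ^ 2 * (A * κe) / (ρ ^ 3 * et lam κ x) ≤ A * K2 * x := by
  have hx := h.x0
  have hk := h.k0
  have hl := h.lam0
  have hA := h.A1
  have hρ0 : 0 < ρ := lt_of_lt_of_le hx hρ
  have hA0 : 0 < A := by linarith
  have hK2 : 0 < K2 := by linarith [h.K21]
  have hx5 : x ^ 5 ≤ x := by
    calc x ^ 5 ≤ x ^ 1 := pow_le_pow_of_le_one hx.le h.x1 (by norm_num)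
      _ = x := pow_one x
  have h3 : A * κe ≤ 1 := by
    refine le_trans ?_ h.k1
    gcongr
  refine ⟨?_, ?_, ?_⟩
  · calc 1 / x * (A * κe) / ρ ^ 2 ≤ 1 / x * 1 / x ^ 2 := by gcongr
      _ = _ := by field_simp
  · calc lam ^ 2 * (1 / x * (A * κe) / ρ ^ 2) / et lam κ x ≤
        lam ^ 2 * (1 / x * (A * (K2 * κ)) / x ^ 2) / et lam κ x := by
          have := h.et0
          gcongr
      _ = A * K2 * x ^ 5 := by
          unfold et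
          field_simp
      _ ≤ _ := by gcongr
  · calc lam ^ 2 * (A * κe) / (ρ ^ 3 * et lam κ x) ≤
        lam ^ 2 * (A * (K2 * κ)) / (x ^ 3 * et lam κ x) := by
          have := h.et0
          gcongr
      _ = A * K2 * x ^ 5 := by
          unfold et
          field_simp
      _ ≤ _ := by gcongr

theorem Sm.xbq (h : Sm d L Cg Cs A g0 bq J Q N2 p lam c0 θ mg κ x ϑ s2 K2 pG) :
    x ^ (3 * 2 ^ bq) ≤ lam ^ (6 * Q) ∧ x ^ (2 ^ bq) ≤ lam ^ (2 * Q) := by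
  have hb := h.hb
  have e1 : 2 ^ bq = 2 * 2 ^ (bq - 1) := by
    rw [← pow_succ']
    congr 1
    omega
  have h1 := h.xb
  have h0 : 0 ≤ x ^ (2 ^ (bq - 1)) := by
    have := h.x0
    positivity
  constructor
  · rw [e1]
    have h2 := pow_le_pow_left₀ h0 h1 6
    rw [← pow_mul, ← pow_mul] at h2
    have e2 : 3 * (2 * 2 ^ (bq - 1)) = 2 ^ (bq - 1) * 6 := by ring
    rw [e2, mul_comm 6 Q]
    exact h2
  · rw [e1]
    have h2 := pow_le_pow_left₀ h0 h1 2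
    rw [← pow_mul, ← pow_mul] at h2
    rw [mul_comm 2 (2 ^ (bq - 1)), mul_comm 2 Q]
    exact h2

end

end Pool.Agent.V8H95.ND
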